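import Mathlib

set_option autoImplicit false

/-! A Brouwer type zero lemma in finite dimensional inner product spaces
(analytic proof of Milnor and Rogers). -/

namespace Pool.Agent.P.MP_f7c28d_an

open Metric Set MeasureTheory Filter Topology
open scoped NNReal

variable {E : Type*} [NormedAddCommGroup E] [InnerProductSpace ℝ E] [FiniteDimensional ℝ E]

/-- `t ↦ det (1 + t A)` is reproduced by Lagrange interpolation at `n + 1` nodes. -/
lemma det_interpolate (v : Fin (Module.finrank ℝ E + 1) → ℝ) (hv : Function.Injective v) :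
    ∃ c : Fin (Module.finrank ℝ E + 1) → ℝ, ∑ j, c j = 1 ∧ ∀ A : E →L[ℝ] E,
      (ContinuousLinearMap.id ℝ E + A).det =
        ∑ j, c j * (ContinuousLinearMap.id ℝ E + v j • A).det := by
  classical
  have hinj : Set.InjOn v (Finset.univ : Finset (Fin (Module.finrank ℝ E + 1))) := hv.injOn
  refine ⟨fun j => (Lagrange.basis Finset.univ v j).eval 1, ?_, fun A => ?_⟩
  · rw [← Polynomial.eval_finsetSum, Lagrange.sum_basis hinj Finset.univ_nonempty]
    simp
  · set b := Module.finBasis ℝ E
    set M := LinearMap.toMatrix b b (A : E →ₗ[ℝ] E)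
    set p : Polynomial ℝ := Matrix.det ((Polynomial.X : Polynomial ℝ) • M.map Polynomial.C +
      (1 : Matrix _ _ ℝ).map Polynomial.C) with hp
    have hev : ∀ t : ℝ, p.eval t = (ContinuousLinearMap.id ℝ E + t • A).det := by
      intro t
      have h1 : (ContinuousLinearMap.id ℝ E + t • A).det = (1 + t • M).det := by
        rw [ContinuousLinearMap.det, ← LinearMap.det_toMatrix b]
        congr 1
        simp [M]
      rw [h1, hp, ← Polynomial.coe_evalRingHom, RingHom.map_det]
      congr 1
      ext i j
      by_cases hij : i = j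
      · subst hij
        simp [add_comm]
        ring
      · simp [Matrix.one_apply_ne hij]
        ring
    have hdeg : p.degree < (Finset.univ : Finset (Fin (Module.finrank ℝ E + 1))).card := by
      have := Polynomial.natDegree_det_X_add_C_le M 1
      rw [← hp] at this
      simp only [Fintype.card_fin, Finset.card_univ] at this ⊢
      refine lt_of_le_of_lt Polynomial.degree_le_natDegree ?_
      exact_mod_cast Nat.lt_succ_of_le this
    have h2 := Lagrange.eq_interpolate hinj hdeg
    have h3 := hev 1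
    rw [one_smul] at h3
    rw [← h3]
    conv_lhs => rw [h2]
    rw [Lagrange.interpolate_apply, Polynomial.eval_finsetSum]
    refine Finset.sum_congr rfl fun j _ => ?_
    rw [Polynomial.eval_mul, Polynomial.eval_C, hev, mul_comm]

/-- There is no `C¹` retraction of the closed unit ball onto the sphere. -/
lemma no_retraction (r : E → E) (hr : ∀ x ∈ closedBall (0 : E) 1, ContDiffAt ℝ 1 r x)
    (h1 : ∀ x ∈ closedBall (0 : E) 1, ‖r x‖ = 1) (h2 : ∀ x : E, ‖x‖ = 1 → r x = x) : False := by
  classical
  borelize E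
  set μ : Measure E := Measure.addHaar
  set g : E → E := fun x => r x - x with hg
  have hgd : ∀ x ∈ closedBall (0 : E) 1, ContDiffAt ℝ 1 g x := fun x hx =>
    (hr x hx).sub contDiffAt_id
  obtain ⟨K, hK⟩ : ∃ K, LipschitzOnWith K g (closedBall (0 : E) 1) :=
    ContDiffOn.exists_lipschitzOnWith (n := 1) (fun x hx => (hgd x hx).contDiffWithinAt)
      one_ne_zero (convex_closedBall _ _) (isCompact_closedBall _ _)
  have hA : ContinuousOn (fderiv ℝ g) (closedBall (0 : E) 1) := fun x hx =>
    ((hgd x hx).continuousAt_fderiv one_ne_zero).continuousWithinAt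
  obtain ⟨C, hC⟩ := (isCompact_closedBall (0 : E) 1).exists_bound_of_continuousOn hA
  have hC0 : 0 ≤ C := (norm_nonneg _).trans (hC 0 (by simp))
  obtain ⟨δ, hδ, hdet⟩ : ∃ δ > 0, ∀ B : E →L[ℝ] E, ‖B‖ < δ →
      0 < (ContinuousLinearMap.id ℝ E + B).det := by
    have hc : Continuous fun B : E →L[ℝ] E => (ContinuousLinearMap.id ℝ E + B).det :=
      ContinuousLinearMap.continuous_det.comp (continuous_const.add continuous_id)
    have h0 : (0 : ℝ) < (ContinuousLinearMap.id ℝ E + 0).det := by
      simp [ContinuousLinearMap.det]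
    have := hc.continuousAt.eventually (lt_mem_nhds h0)
    obtain ⟨δ, hδ, h⟩ := Metric.eventually_nhds_iff.1 this
    exact ⟨δ, hδ, fun B hB => h (by simpa using hB)⟩
  have hgb : ∀ x ∈ closedBall (0 : E) 1, ‖g x‖ ≤ K * (1 - ‖x‖) := by
    intro x hx
    have hx' : ‖x‖ ≤ 1 := by simpa using hx
    obtain ⟨z, hz, hxz⟩ : ∃ z : E, ‖z‖ = 1 ∧ ‖x - z‖ = 1 - ‖x‖ := by
      by_cases hx0 : x = 0
      · exact ⟨r 0, h1 0 (by simp), by simp [hx0, h1 0 (by simp)]⟩
      · have hn : 0 < ‖x‖ := norm_pos_iff.2 hx0
        refine ⟨‖x‖⁻¹ • x, by simp [norm_smul, hn.ne'], ?_⟩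
        have : x - ‖x‖⁻¹ • x = (1 - ‖x‖⁻¹) • x := by rw [sub_smul, one_smul]
        rw [this, norm_smul, Real.norm_eq_abs, abs_of_nonpos]
        · field_simp
          ring
        · have : 1 ≤ ‖x‖⁻¹ := (one_le_inv₀ hn).2 hx'
          linarith
    have hgz : g z = 0 := by simp [hg, h2 z hz]
    have := hK.norm_sub_le hx (show z ∈ closedBall (0 : E) 1 by simp [hz])
    rwa [hgz, sub_zero, hxz] at this
  set g' : E → E := fun x => if ‖x‖ ≤ 1 then g x else 0 with hg'
  have hK' : LipschitzWith K g' := by
    refine LipschitzWith.of_dist_le_mul fun x y => ?_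
    rw [dist_eq_norm, dist_eq_norm]
    by_cases hx : ‖x‖ ≤ 1 <;> by_cases hy : ‖y‖ ≤ 1 <;> simp only [hg', hx, hy, if_true, if_false]
    · exact hK.norm_sub_le (by simpa using hx) (by simpa using hy)
    · rw [sub_zero]
      refine (hgb x (by simpa using hx)).trans (mul_le_mul_of_nonneg_left ?_ K.2)
      have := norm_sub_norm_le y x
      rw [norm_sub_rev] at this
      linarith
    · rw [zero_sub, norm_neg]
      refine (hgb y (by simpa using hy)).trans (mul_le_mul_of_nonneg_left ?_ K.2)
      have := norm_sub_norm_le x y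
      linarith
    · simp only [sub_self, norm_zero]
      positivity
  have hint : ∀ t : ℝ, IntegrableOn (fun x => (ContinuousLinearMap.id ℝ E + t • fderiv ℝ g x).det)
      (ball (0 : E) 1) μ := by
    intro t
    refine IntegrableOn.mono_set ?_ ball_subset_closedBall
    refine ContinuousOn.integrableOn_compact (isCompact_closedBall _ _) ?_
    exact ContinuousLinearMap.continuous_det.comp_continuousOn
      (continuousOn_const.add (hA.const_smul t))
  have key : ∀ t : ℝ, 0 ≤ t → t < 1 → t * K < 1 → t * C < δ →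
      ∫ x in ball (0 : E) 1, (ContinuousLinearMap.id ℝ E + t • fderiv ℝ g x).det ∂μ =
        μ.real (ball (0 : E) 1) := by
    intro t ht0 ht1 htK htC
    set f : E → E := fun x => x + t • g x with hf
    have hder : ∀ x ∈ ball (0 : E) 1, HasFDerivWithinAt f
        (ContinuousLinearMap.id ℝ E + t • fderiv ℝ g x) (ball (0 : E) 1) x := by
      intro x hx
      have := ((hgd x (ball_subset_closedBall hx)).differentiableAt one_ne_zero).hasFDerivAt
      exact ((hasFDerivAt_id x).add (this.const_smul t)).hasFDerivWithinAt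
    have hinj : InjOn f (ball (0 : E) 1) := by
      intro x hx y hy hxy
      have h3 : x - y = -(t • (g x - g y)) := by
        simp only [hf] at hxy
        rw [smul_sub]
        linear_combination (norm := module) hxy
      have h4 := hK.norm_sub_le (ball_subset_closedBall hx) (ball_subset_closedBall hy)
      have h5 : ‖x - y‖ ≤ t * (K * ‖x - y‖) := by
        conv_lhs => rw [h3, norm_neg, norm_smul, Real.norm_of_nonneg ht0]
        exact mul_le_mul_of_nonneg_left h4 ht0
      have h6 : ‖x - y‖ = 0 := by nlinarith [norm_nonneg (x - y)]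
      exact sub_eq_zero.1 (norm_eq_zero.1 h6)
    have himg : f '' ball (0 : E) 1 = ball (0 : E) 1 := by
      apply Subset.antisymm
      · rintro _ ⟨x, hx, rfl⟩
        have hx' : ‖x‖ < 1 := by simpa using hx
        have : f x = (1 - t) • x + t • r x := by
          simp only [hf, hg, smul_sub, sub_smul, one_smul]
          abel
        rw [mem_ball_zero_iff, this]
        refine (norm_add_le _ _).trans_lt ?_
        rw [norm_smul, norm_smul, h1 x (ball_subset_closedBall hx), Real.norm_of_nonneg ht0,
          Real.norm_of_nonneg (by linarith)]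
        nlinarith
      · intro y hy
        have hy' : ‖y‖ < 1 := by simpa using hy
        have hcon : ContractingWith (t.toNNReal * K) (fun x => y - t • g' x) := by
          refine ⟨?_, LipschitzWith.of_dist_le_mul fun a b => ?_⟩
          · rw [← NNReal.coe_lt_coe]
            push_cast
            rwa [Real.coe_toNNReal t ht0]
          rw [dist_sub_left, dist_smul₀, Real.norm_of_nonneg ht0]
          have := hK'.dist_le_mul a b
          push_cast
          rw [Real.coe_toNNReal t ht0, mul_assoc]
          exact mul_le_mul_of_nonneg_left this ht0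
        have hfix := hcon.fixedPoint_isFixedPt
        set x := hcon.fixedPoint
        have hx : y - t • g' x = x := hfix
        have hlt : ‖x‖ < 1 := by
          by_contra hge
          push Not at hge
          have : g' x = 0 := by
            simp only [hg']
            split_ifs with h
            · simp [hg, h2 x (le_antisymm h hge)]
            · rfl
          rw [this, smul_zero, sub_zero] at hx
          rw [← hx] at hge
          linarith
        refine ⟨x, by simpa using hlt, ?_⟩
        simp only [hg', hlt.le, if_true] at hx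
        simp only [hf]
        linear_combination (norm := module) -hx
    have hcv := integral_image_eq_integral_abs_det_fderiv_smul μ measurableSet_ball hder hinj
      (fun _ => (1 : ℝ))
    rw [himg] at hcv
    simp only [integral_const, MeasurableSet.univ, measureReal_restrict_apply, univ_inter,
      smul_eq_mul, mul_one] at hcv
    rw [hcv]
    refine setIntegral_congr_fun measurableSet_ball fun x hx => ?_
    refine (abs_of_pos (hdet _ ?_)).symm
    rw [norm_smul, Real.norm_of_nonneg ht0]
    exact (mul_le_mul_of_nonneg_left (hC x (ball_subset_closedBall hx)) ht0).trans_lt htC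
  obtain ⟨ε, hε, hε1, hεK, hεC⟩ : ∃ ε : ℝ, 0 < ε ∧ ε < 1 ∧ ε * K < 1 ∧ ε * C < δ := by
    have e1 : ∀ᶠ ε : ℝ in 𝓝[>] 0, ε < 1 := nhdsWithin_le_nhds (gt_mem_nhds one_pos)
    have e2 : ∀ᶠ ε : ℝ in 𝓝[>] 0, ε * K < 1 := nhdsWithin_le_nhds
      ((continuous_id.mul continuous_const).continuousAt.eventually (gt_mem_nhds (by simp)))
    have e3 : ∀ᶠ ε : ℝ in 𝓝[>] 0, ε * C < δ := nhdsWithin_le_nhds
      ((continuous_id.mul continuous_const).continuousAt.eventually (gt_mem_nhds (by simpa)))
    have e0 : ∀ᶠ ε : ℝ in 𝓝[>] 0, 0 < ε := self_mem_nhdsWithin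
    obtain ⟨ε, h⟩ := ((e0.and e1).and (e2.and e3)).exists
    exact ⟨ε, h.1.1, h.1.2, h.2.1, h.2.2⟩
  set v : Fin (Module.finrank ℝ E + 1) → ℝ := fun j => ε / ((j : ℕ) + 1) with hv
  have hvinj : Function.Injective v := by
    intro i j hij
    simp only [hv] at hij
    rw [div_eq_div_iff (by positivity) (by positivity)] at hij
    have h := mul_left_cancel₀ hε.ne' hij
    have h' : (j : ℕ) = i := by exact_mod_cast add_right_cancel h
    exact Fin.ext h'.symm
  have hvle : ∀ j, 0 ≤ v j ∧ v j ≤ ε := fun j =>
    ⟨by positivity, div_le_self hε.le (by simp)⟩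
  obtain ⟨c, hc, hcA⟩ := det_interpolate v hvinj
  have hzero : ∀ x ∈ ball (0 : E) 1, (ContinuousLinearMap.id ℝ E + fderiv ℝ g x).det = 0 := by
    intro x hx
    by_contra hne
    have hd : HasFDerivAt r (ContinuousLinearMap.id ℝ E + fderiv ℝ g x) x := by
      have := ((hgd x (ball_subset_closedBall hx)).differentiableAt one_ne_zero).hasFDerivAt
      have h := (hasFDerivAt_id x).add this
      refine h.congr_of_eventuallyEq (Eventually.of_forall fun y => ?_)
      simp [hg]
    set B := ContinuousLinearMap.id ℝ E + fderiv ℝ g x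
    have hn := hd.norm_sq
    have hconst : HasFDerivAt (fun y => ‖r y‖ ^ 2) (0 : E →L[ℝ] ℝ) x := by
      refine (hasFDerivAt_const (1 : ℝ) x).congr_of_eventuallyEq ?_
      filter_upwards [isOpen_ball.mem_nhds hx] with y hy
      simp [h1 y (ball_subset_closedBall hy)]
    have heq := hn.unique hconst
    have hsurj : Function.Surjective B :=
      (LinearMap.isUnit_iff_isUnit_det (B : E →ₗ[ℝ] E)).2 (Ne.isUnit hne) |>
        (LinearMap.isUnit_iff_range_eq_top _).1 |> LinearMap.range_eq_top.1
    obtain ⟨h, hh⟩ := hsurj (r x)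
    have := congrArg (fun T : E →L[ℝ] ℝ => T h) heq
    simp only [smul_apply, ContinuousLinearMap.comp_apply, hh, innerSL_apply_apply,
      real_inner_self_eq_norm_sq, h1 x (ball_subset_closedBall hx),
      zero_apply] at this
    norm_num at this
  have hI : ∫ x in ball (0 : E) 1, (ContinuousLinearMap.id ℝ E + fderiv ℝ g x).det ∂μ = 0 := by
    rw [setIntegral_congr_fun measurableSet_ball hzero]
    simp
  rw [integral_congr_ae (Eventually.of_forall fun x => hcA (fderiv ℝ g x))] at hI
  rw [integral_finsetSum _ fun j _ => (hint (v j)).const_mul (c j)] at hI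
  simp_rw [integral_const_mul] at hI
  rw [Finset.sum_congr rfl fun j _ => by
    rw [key (v j) (hvle j).1 ((hvle j).2.trans_lt hε1)
      ((mul_le_mul_of_nonneg_right (hvle j).2 K.2).trans_lt hεK)
      ((mul_le_mul_of_nonneg_right (hvle j).2 hC0).trans_lt hεC)], ← Finset.sum_mul, hc,
    one_mul] at hI
  have hpos : 0 < μ.real (ball (0 : E) 1) :=
    ENNReal.toReal_pos (measure_ball_pos μ _ one_pos).ne' measure_ball_lt_top.ne
  exact hpos.ne' hI

/-- Zero lemma on the unit ball. -/
lemma exists_zero_unit (G : E → E) (hG : Continuous G)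
    (hb : ∀ x : E, ‖x‖ = 1 → 0 < inner ℝ (G x) x) : ∃ x : E, ‖x‖ ≤ 1 ∧ G x = 0 := by
  by_contra hne
  push Not at hne
  obtain ⟨ε, hε, hε1, hε2⟩ : ∃ ε > 0, (∀ x : E, ‖x‖ ≤ 1 → ε ≤ ‖G x‖) ∧
      ∀ x : E, ‖x‖ = 1 → ε ≤ inner ℝ (G x) x := by
    obtain ⟨a, ha, h1⟩ := (isCompact_closedBall (0 : E) 1).exists_forall_le'
      (f := fun x => ‖G x‖) hG.norm.continuousOn (a := 0)
      fun x hx => norm_pos_iff.2 (hne x (by simpa using hx))
    obtain ⟨b, hb', h2⟩ := (isCompact_sphere (0 : E) 1).exists_forall_le'
      (f := fun x => inner ℝ (G x) x) (hG.inner continuous_id).continuousOn (a := 0)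
      fun x hx => hb x (by simpa using hx)
    exact ⟨min a b, lt_min ha hb', fun x hx => (min_le_left _ _).trans (h1 x (by simpa using hx)),
      fun x hx => (min_le_right _ _).trans (h2 x (by simpa using hx))⟩
  obtain ⟨P, hP, hPG, -⟩ := hG.exists_contDiff_approx (n := 1) (ε := fun _ => ε)
    continuous_const fun _ => hε
  have hP1 : ContDiff ℝ 1 P := by exact_mod_cast hP
  have hP0 : ∀ x : E, ‖x‖ ≤ 1 → P x ≠ 0 := by
    intro x hx h0
    have := hPG x
    rw [h0, dist_comm, dist_zero_right] at this
    linarith [hε1 x hx]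
  have hPb : ∀ x : E, ‖x‖ = 1 → 0 < inner ℝ x (P x) := by
    intro x hx
    have h1 := hPG x
    rw [dist_eq_norm] at h1
    have h2 : inner ℝ x (P x) = inner ℝ (G x) x + inner ℝ (P x - G x) x := by
      rw [inner_sub_left, real_inner_comm]
      ring
    have h3 := abs_real_inner_le_norm (P x - G x) x
    rw [hx, mul_one] at h3
    have := neg_abs_le (inner ℝ (P x - G x) x)
    linarith [hε2 x hx]
  set D : E → ℝ := fun x => inner ℝ x (P x) ^ 2 + ‖P x‖ ^ 2 * (1 - ‖x‖ ^ 2) with hD
  have hDpos : ∀ x : E, ‖x‖ ≤ 1 → 0 < D x := by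
    intro x hx
    have hp : 0 < ‖P x‖ := norm_pos_iff.2 (hP0 x hx)
    rcases hx.eq_or_lt with h | h
    · have := hPb x h
      simp only [hD, h]
      nlinarith
    · have : 0 < 1 - ‖x‖ ^ 2 := by nlinarith [norm_nonneg x]
      simp only [hD]
      positivity
  set lam : E → ℝ := fun x => (Real.sqrt (D x) - inner ℝ x (P x)) / ‖P x‖ ^ 2 with hlam
  refine no_retraction (fun x => x + lam x • P x) ?_ ?_ ?_
  · intro x hx
    have hx' : ‖x‖ ≤ 1 := by simpa using hx
    have hi : ContDiff ℝ 1 fun x => inner ℝ x (P x) := contDiff_id.inner ℝ hP1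
    have hn : ContDiff ℝ 1 fun x => ‖P x‖ ^ 2 := hP1.norm_sq ℝ
    have hDc : ContDiff ℝ 1 D :=
      (hi.pow 2).add (hn.mul (contDiff_const.sub (contDiff_norm_sq ℝ)))
    refine contDiffAt_id.add (ContDiffAt.smul ?_ hP1.contDiffAt)
    exact ((hDc.contDiffAt.sqrt (hDpos x hx').ne').sub hi.contDiffAt).div hn.contDiffAt
      (pow_ne_zero 2 (norm_ne_zero_iff.2 (hP0 x hx')))
  · intro x hx
    have hx' : ‖x‖ ≤ 1 := by simpa using hx
    have hp : 0 < ‖P x‖ := norm_pos_iff.2 (hP0 x hx')
    have hs := Real.sq_sqrt (hDpos x hx').le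
    have h1 : ‖x + lam x • P x‖ ^ 2 = 1 := by
      rw [norm_add_sq_real, inner_smul_right, norm_smul, mul_pow, Real.norm_eq_abs, sq_abs]
      simp only [hlam]
      field_simp
      simp only [hD] at hs ⊢
      nlinarith
    exact (pow_eq_one_iff_of_nonneg (norm_nonneg _) two_ne_zero).1 h1
  · intro x hx
    have : lam x = 0 := by
      simp only [hlam, hD, hx]
      simp [Real.sqrt_sq (hPb x hx).le]
    simp [this]

/-- Zero lemma on a ball of radius `ρ`, for maps continuous on the closed ball. -/
theorem exists_zero (ρ : ℝ) (hρ : 0 < ρ) (G : E → E) (hG : ContinuousOn G (closedBall 0 ρ))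
    (hb : ∀ x : E, ‖x‖ = ρ → 0 < inner ℝ (G x) x) : ∃ x : E, ‖x‖ ≤ ρ ∧ G x = 0 := by
  set π : E → E := fun x => (ρ / max 1 ‖x‖) • x with hπ
  have hπc : Continuous π := by
    refine Continuous.smul (continuous_const.div (by fun_prop) fun x => ?_) continuous_id
    exact (lt_of_lt_of_le one_pos (le_max_left _ _)).ne'
  have hπm : ∀ x, ‖π x‖ ≤ ρ := by
    intro x
    have h1 : 0 < max 1 ‖x‖ := lt_of_lt_of_le one_pos (le_max_left _ _)
    rw [hπ, norm_smul, Real.norm_of_nonneg (by positivity), div_mul_eq_mul_div, div_le_iff₀ h1]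
    exact mul_le_mul_of_nonneg_left (le_max_right _ _) hρ.le
  obtain ⟨x, -, hx⟩ := exists_zero_unit (fun x => G (π x))
    (hG.comp_continuous hπc fun x => by simpa using hπm x) fun x hx => by
      have h1 : π x = ρ • x := by simp [hπ, hx]
      have h2 := hb (ρ • x) (by rw [norm_smul, hx, mul_one, Real.norm_of_nonneg hρ.le])
      rw [inner_smul_right] at h2
      rw [h1]
      exact (mul_pos_iff_of_pos_left hρ).1 h2
  exact ⟨π x, hπm x, hx⟩

end Pool.Agent.P.MP_f7c28d_an
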