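import Pool.Agent.P.MP_f7c28d_an.Seq

set_option autoImplicit false

/-! Passing to the limit in the quadratic terms. -/

namespace Pool.Agent.P.MP_f7c28d_an

open Set Filter Topology MeasureTheory
open scoped NNReal

def nsq (k : K) : ℝ := (k 0 : ℝ) ^ 2 + (k 1 : ℝ) ^ 2

lemma nsq_nonneg (k : K) : 0 ≤ nsq k := by unfold nsq; positivity

lemma nsq_neg (k : K) : nsq (-k) = nsq k := by simp [nsq]

lemma one_le_nsq {k : K} (hk : k ≠ 0) : 1 ≤ nsq k := by
  have h : k 0 ≠ 0 ∨ k 1 ≠ 0 := by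
    by_contra h
    push Not at h
    exact hk (funext fun i => by fin_cases i <;> simp [h.1, h.2])
  have h1 : (1 : ℤ) ≤ k 0 ^ 2 + k 1 ^ 2 := by
    rcases h with h | h
    · nlinarith [sq_pos_of_ne_zero h, sq_nonneg (k 1)]
    · nlinarith [sq_pos_of_ne_zero h, sq_nonneg (k 0)]
  unfold nsq
  exact_mod_cast h1

/-- The box of frequencies. -/
noncomputable def box (N : ℕ) : Finset K := Fintype.piFinset fun _ => Finset.Icc (-(N : ℤ)) N

lemma nsq_ge_of_notMem_box {N : ℕ} {p : K} (hp : p ∉ box N) : (N : ℝ) ^ 2 ≤ nsq p := by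
  simp only [box, Fintype.mem_piFinset, Finset.mem_Icc, not_forall] at hp
  obtain ⟨i, hi⟩ := hp
  have h1 : (N : ℤ) ^ 2 ≤ p i ^ 2 := by
    rw [← abs_le, not_le] at hi
    exact sq_le_sq.2 (by rw [abs_of_nonneg (by positivity)]; exact hi.le)
  have h2 : (N : ℤ) ^ 2 ≤ p 0 ^ 2 + p 1 ^ 2 := by
    fin_cases i <;> simp at h1 <;> nlinarith [sq_nonneg (p 0), sq_nonneg (p 1)]
  unfold nsq
  exact_mod_cast h2

lemma eventually_mem_box (p : K) : ∀ᶠ N in atTop, p ∈ box N := by
  filter_upwards [eventually_ge_atTop (p 0).natAbs, eventually_ge_atTop (p 1).natAbs] with N h0 h1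
  simp only [box, Fintype.mem_piFinset, Finset.mem_Icc, Fin.forall_fin_two]
  omega

/-- Space-time energy bound through finite sums. -/
def En (v : ℝ → K → ℂ) (T C : ℝ) : Prop :=
  ∀ G : Finset K, ∫ t in -T..T, ∑ p ∈ G, nsq p * ‖v t p‖ ^ 2 ≤ C

lemma En.of_tendsto {vn : ℕ → ℝ → K → ℂ} {v : ℝ → K → ℂ} {T C A : ℝ}
    (hc : ∀ n k, Continuous fun t => vn n t k) (hA : ∀ n t, Bd (vn n t) A)
    (h : ∀ᶠ n in atTop, En (vn n) T C)
    (hl : ∀ t k, Tendsto (fun n => vn n t k) atTop (𝓝 (v t k))) : En v T C := by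
  intro G
  refine le_of_tendsto (f := fun n => ∫ t in -T..T, ∑ p ∈ G, nsq p * ‖vn n t p‖ ^ 2)
    (x := atTop) ?_ (h.mono fun n hn => hn G)
  refine intervalIntegral.tendsto_integral_filter_of_dominated_convergence
    (fun _ => ∑ p ∈ G, nsq p * A ^ 2) (Eventually.of_forall fun n => ?_)
    (Eventually.of_forall fun n => Eventually.of_forall fun t _ => ?_) intervalIntegrable_const
    (Eventually.of_forall fun t _ => ?_)
  · exact (continuous_finsetSum G fun p _ =>
      continuous_const.mul ((hc n p).norm.pow 2)).aestronglyMeasurable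
  · rw [Real.norm_of_nonneg (Finset.sum_nonneg fun p _ => mul_nonneg (nsq_nonneg p) (by positivity))]
    refine Finset.sum_le_sum fun p _ => mul_le_mul_of_nonneg_left ?_ (nsq_nonneg p)
    gcongr
    exact (hA n t).norm_le p
  · exact tendsto_finsetSum G fun p _ => ((hl t p).norm.pow 2).const_mul _

lemma tail_bound {v f : ℝ → K → ℂ} {A B T C P : ℝ} (hv : ∀ k, Continuous fun t => v t k)
    (hf : ∀ k, Continuous fun t => f t k) (hA : ∀ t, Bd (v t) A) (hB : ∀ t, Bd (f t) B)
    (hT : 0 ≤ T) (hE : En v T C) {N : ℕ} (hN : 0 < N) {ψ : ℝ → ℝ} (hψ : Continuous ψ)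
    (hs : HasCompactSupport ψ) (hP : ∀ t, ‖ψ t‖ ≤ P) (hψT : ∀ t ∉ Ioc (-T) T, ψ t = 0) (k : K) :
    ‖(∫ t, (ψ t : ℂ) * cv (v t) (f t) k) -
      ∫ t, (ψ t : ℂ) * ∑ p ∈ box N, v t p * f t (k - p)‖ ≤ P * B * ((2 * T + C) / N) := by
  have hN' : (0 : ℝ) < N := by exact_mod_cast hN
  have hP0 : 0 ≤ P := (norm_nonneg _).trans (hP 0)
  have hB0 : 0 ≤ B := (hB 0).1
  set w : ℝ → K → ℂ := fun t p => if p ∈ box N then 0 else v t p with hw
  have hwA : ∀ t, Bd (w t) A := fun t => (hA t).mono fun p => by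
    simp only [hw]
    split_ifs <;> simp
  have hwc : ∀ p, Continuous fun t => w t p := fun p => by
    simp only [hw]
    split_ifs
    exacts [continuous_const, hv p]
  set tl : ℝ → ℝ := fun t => ∑' p, ‖w t p‖ ^ 2 with htl
  have htl0 : ∀ t, 0 ≤ tl t := fun t => tsum_nonneg fun _ => by positivity
  have htlA : ∀ t, tl t ≤ A ^ 2 := fun t => (hwA t).summable.tsum_le_of_sum_le (hwA t).2
  have htlm : StronglyMeasurable tl := stronglyMeasurable_of_hasSum
    (c := fun t p => ‖w t p‖ ^ 2) (fun p => (hwc p).norm.pow 2) fun t => (hwA t).summable.hasSum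
  have htli : IntervalIntegrable tl volume (-T) T :=
    (intervalIntegrable_const (c := A ^ 2)).mono_fun' htlm.aestronglyMeasurable
      (Eventually.of_forall fun t => by
        simp only [Real.norm_of_nonneg (htl0 t)]
        exact htlA t)
  have hint : ∫ t in -T..T, tl t ≤ C / N ^ 2 := by
    refine le_of_tendsto' (f := fun G : Finset K => ∫ t in -T..T, ∑ p ∈ G, ‖w t p‖ ^ 2)
      (x := atTop) ?_ fun G => ?_
    · refine intervalIntegral.tendsto_integral_filter_of_dominated_convergence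
        (fun _ => A ^ 2) (Eventually.of_forall fun G => ?_)
        (Eventually.of_forall fun G => Eventually.of_forall fun t _ => ?_) intervalIntegrable_const
        (Eventually.of_forall fun t _ => (hwA t).summable.hasSum)
      · exact (continuous_finsetSum G fun p _ => (hwc p).norm.pow 2).aestronglyMeasurable
      · rw [Real.norm_of_nonneg (by positivity)]
        exact (hwA t).2 G
    · rw [le_div_iff₀ (by positivity), ← intervalIntegral.integral_mul_const]
      refine le_trans (intervalIntegral.integral_mono_on (by linarith) ?_ ?_ fun t _ => ?_) (hE G)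
      · exact ((continuous_finsetSum G fun p _ => (hwc p).norm.pow 2).mul
          continuous_const).intervalIntegrable _ _
      · exact (continuous_finsetSum G fun p _ =>
          continuous_const.mul ((hv p).norm.pow 2)).intervalIntegrable _ _
      · rw [Finset.sum_mul]
        refine Finset.sum_le_sum fun p _ => ?_
        simp only [hw]
        split_ifs with hp
        · simpa using mul_nonneg (nsq_nonneg p) (by positivity)
        · rw [mul_comm]
          gcongr
          exact nsq_ge_of_notMem_box hp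
  have hBM2 : BM fun t => ∑ p ∈ box N, v t p * f t (k - p) :=
    ⟨(continuous_finsetSum _ fun p _ => (hv p).mul (hf _)).stronglyMeasurable, A * B, fun t =>
      (norm_sum_le _ _).trans (sum_norm_mul_le (hA t) ((hB t).comp (Equiv.subLeft k)) _)⟩
  rw [← integral_sub ((BM.cv hv hf hA hB k).integrable_mul hψ hs) (hBM2.integrable_mul hψ hs)]
  have hgi : IntervalIntegrable (fun t => P * B * (1 / N + N * tl t)) volume (-T) T :=
    (intervalIntegrable_const.add (htli.const_mul _)).const_mul _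
  refine (norm_integral_le_of_norm_le
    (g := (Ioc (-T) T).indicator fun t => P * B * (1 / N + N * tl t))
    ((integrable_indicator_iff measurableSet_Ioc).2 hgi.1) (Eventually.of_forall fun t => ?_)).trans ?_
  · by_cases ht : t ∈ Ioc (-T) T
    · rw [indicator_of_mem ht, ← mul_sub, norm_mul, Complex.norm_real]
      have h1 : Bd (w t) (Real.sqrt (tl t)) := ⟨Real.sqrt_nonneg _, fun G => by
        rw [Real.sq_sqrt (htl0 t)]
        exact (hwA t).summable.sum_le_tsum G fun _ _ => by positivity⟩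
      have h2 := norm_cv_sub_le (hA t) (hB t) (box N) h1 k
      have h3 : Real.sqrt (tl t) ≤ 1 / N + N * tl t := by
        have h4 := Real.sq_sqrt (htl0 t)
        have h5 := Real.sqrt_nonneg (tl t)
        set s := Real.sqrt (tl t)
        rw [← h4, div_add' _ _ _ hN'.ne', le_div_iff₀ hN']
        nlinarith [sq_nonneg (N * s - 1), mul_nonneg hN'.le h5]
      calc _ ≤ P * (Real.sqrt (tl t) * B) := by gcongr; exact hP t
        _ = P * B * Real.sqrt (tl t) := by ring
        _ ≤ _ := by gcongr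
    · simp [indicator_of_notMem ht, hψT t ht]
  · rw [integral_indicator measurableSet_Ioc, ← intervalIntegral.integral_of_le (by linarith),
      intervalIntegral.integral_const_mul,
      intervalIntegral.integral_add intervalIntegrable_const (htli.const_mul _),
      intervalIntegral.integral_const_mul, intervalIntegral.integral_const]
    gcongr
    have : (N : ℝ) * ∫ t in -T..T, tl t ≤ N * (C / N ^ 2) := by gcongr
    refine (add_le_add_right this _).trans (le_of_eq ?_)
    rw [smul_eq_mul]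
    field_simp
    ring

lemma exists_support_bound {ψ : ℝ → ℝ} (hs : HasCompactSupport ψ) :
    ∃ T : ℝ, 0 < T ∧ ∀ t ∉ Ioo (-T) T, ψ t = 0 := by
  obtain ⟨T, hT, h⟩ := hs.isCompact.isBounded.subset_ball_lt 0 0
  refine ⟨T, hT, fun t ht => image_eq_zero_of_notMem_tsupport fun h' => ht ?_⟩
  have := h h'
  rwa [Real.ball_eq_Ioo, zero_sub, zero_add] at this

lemma WC.cv {vn fn : ℕ → ℝ → K → ℂ} {v f : ℝ → K → ℂ} {A B : ℝ}
    (hvn : ∀ n k, Continuous fun t => vn n t k) (hfn : ∀ n k, Continuous fun t => fn n t k)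
    (hv : ∀ k, Continuous fun t => v t k) (hf : ∀ k, Continuous fun t => f t k)
    (hA : ∀ n t, Bd (vn n t) A) (hB : ∀ n t, Bd (fn n t) B)
    (hE : ∀ T, 0 < T → ∃ C, ∀ᶠ n in atTop, En (vn n) T C)
    (hlv : ∀ t k, Tendsto (fun n => vn n t k) atTop (𝓝 (v t k)))
    (hlf : ∀ t k, Tendsto (fun n => fn n t k) atTop (𝓝 (f t k))) (k : K) :
    WC (fun n t => cv (vn n t) (fn n t) k) fun t => cv (v t) (f t) k := by
  have hA' : ∀ t, Bd (v t) A := fun t => Bd.of_tendsto (fun n => hA n t) (hlv t)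
  have hB' : ∀ t, Bd (f t) B := fun t => Bd.of_tendsto (fun n => hB n t) (hlf t)
  refine ⟨fun n => BM.cv (hvn n) (hfn n) (hA n) (hB n) k, BM.cv hv hf hA' hB' k,
    fun ψ hψ hs => ?_⟩
  obtain ⟨T, hT, hψT⟩ := exists_support_bound hs
  have hψT' : ∀ t ∉ Ioc (-T) T, ψ t = 0 := fun t ht => hψT t fun h => ht (Ioo_subset_Ioc_self h)
  obtain ⟨P, hP⟩ := hψ.bounded_above_of_compact_support hs
  obtain ⟨C, hC⟩ := hE T hT
  have hC' := En.of_tendsto hvn hA hC hlv
  rw [Metric.tendsto_nhds]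
  intro ε hε
  have hlim : Tendsto (fun N : ℕ => P * B * ((2 * T + C) / N)) atTop (𝓝 (P * B * 0)) :=
    (tendsto_const_div_atTop_nhds_zero_nat _).const_mul _
  rw [mul_zero] at hlim
  obtain ⟨N, hN1, hN2⟩ := ((hlim.eventually (gt_mem_nhds (show 0 < ε / 3 by positivity))).and
    (eventually_gt_atTop 0)).exists
  have hmid := (WC.of_tendsto (Fn := fun n t => ∑ p ∈ box N, vn n t p * fn n t (k - p))
    (F := fun t => ∑ p ∈ box N, v t p * f t (k - p))
    (fun n => continuous_finsetSum _ fun p _ => (hvn n p).mul (hfn n _)) (C := A * B)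
    (fun n t => (norm_sum_le _ _).trans
      (sum_norm_mul_le (hA n t) ((hB n t).comp (Equiv.subLeft k)) _))
    fun t => tendsto_finsetSum _ fun p _ => (hlv t p).mul (hlf t _)).2.2 ψ hψ hs
  rw [Metric.tendsto_nhds] at hmid
  filter_upwards [hC, hmid (ε / 3) (by positivity)] with n hn1 hn2
  have h1 := tail_bound (hvn n) (hfn n) (hA n) (hB n) hT.le hn1 hN2 hψ hs hP hψT' k
  have h2 := tail_bound hv hf hA' hB' hT.le hC' hN2 hψ hs hP hψT' k
  rw [← dist_eq_norm] at h1 h2
  rw [dist_comm] at h2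
  linarith [dist_triangle4 (∫ t, (ψ t : ℂ) * Pool.Agent.P.MP_f7c28d_an.cv (vn n t) (fn n t) k)
    (∫ t, (ψ t : ℂ) * ∑ p ∈ box N, vn n t p * fn n t (k - p))
    (∫ t, (ψ t : ℂ) * ∑ p ∈ box N, v t p * f t (k - p))
    (∫ t, (ψ t : ℂ) * Pool.Agent.P.MP_f7c28d_an.cv (v t) (f t) k)]

/-- Integration by parts against a compactly supported test function. -/
lemma weak_of_hasDerivAt {f F : ℝ → ℂ} {T : ℝ} (hT : 0 < T) (hF : BM F)
    (hd : ∀ t ∈ Icc (-T) T, HasDerivAt f (F t) t) {ψ : ℝ → ℝ} (hψ : ContDiff ℝ 1 ψ)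
    (hψT : ∀ t ∉ Ioo (-T) T, ψ t = 0) :
    -∫ t, ((deriv ψ t : ℝ) : ℂ) * f t = ∫ t, (ψ t : ℂ) * F t := by
  have hle : -T ≤ T := by linarith
  have hd' : ∀ t ∈ uIcc (-T) T, HasDerivAt f (F t) t := by rwa [uIcc_of_le hle]
  have hψd : ∀ t, HasDerivAt (fun t => (ψ t : ℂ)) ((deriv ψ t : ℝ) : ℂ) t := fun t =>
    ((hψ.differentiable one_ne_zero) t).hasDerivAt.ofReal_comp
  have hψc : Continuous fun t => ((deriv ψ t : ℝ) : ℂ) :=
    Complex.continuous_ofReal.comp (hψ.continuous_deriv le_rfl)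
  have hFi : IntervalIntegrable F volume (-T) T :=
    (hF.locallyIntegrable.integrableOn_isCompact isCompact_uIcc).intervalIntegrable
  have h := intervalIntegral.integral_mul_deriv_eq_deriv_mul (fun t _ => hψd t) hd'
    (hψc.intervalIntegrable _ _) hFi
  rw [hψT T (by simp), hψT (-T) (by simp)] at h
  have hd0 : ∀ t ∉ Icc (-T) T, deriv ψ t = 0 := by
    intro t ht
    have : ψ =ᶠ[𝓝 t] fun _ => 0 := by
      filter_upwards [isClosed_Icc.isOpen_compl.mem_nhds ht] with s hs
      exact hψT s fun h => hs (Ioo_subset_Icc_self h)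
    rw [this.deriv_eq, deriv_const]
  rw [intervalIntegral.integral_of_le hle, intervalIntegral.integral_of_le hle,
    ← integral_Icc_eq_integral_Ioc, ← integral_Icc_eq_integral_Ioc,
    setIntegral_eq_integral_of_forall_compl_eq_zero (fun t ht => by
      rw [hψT t fun h => ht (Ioo_subset_Icc_self h)]; simp),
    setIntegral_eq_integral_of_forall_compl_eq_zero (fun t ht => by rw [hd0 t ht]; simp)] at h
  rw [h]
  simp

/-- Passing to the limit in an ODE in the sense of distributions. -/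
lemma weak_limit {fn Fn : ℕ → ℝ → ℂ} {f F : ℝ → ℂ} (h1 : WC fn f) (h2 : WC Fn F)
    (hd : ∀ T, 0 < T → ∀ᶠ n in atTop, ∀ t ∈ Icc (-T) T, HasDerivAt (fn n) (Fn n t) t)
    {ψ : ℝ → ℝ} (hψ : ContDiff ℝ 1 ψ) (hs : HasCompactSupport ψ) :
    -∫ t, ((deriv ψ t : ℝ) : ℂ) * f t = ∫ t, (ψ t : ℂ) * F t := by
  obtain ⟨T, hT, hψT⟩ := exists_support_bound hs
  refine tendsto_nhds_unique (h1.2.2 _ (hψ.continuous_deriv le_rfl) hs.deriv).neg
    ((h2.2.2 ψ hψ.continuous hs).congr' ?_)
  filter_upwards [hd T hT] with n hn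
  exact (weak_of_hasDerivAt hT (h2.1 n) hn hψ hψT).symm

end Pool.Agent.P.MP_f7c28d_an
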