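import Mathlib

set_option autoImplicit false

namespace Pool.Agent.P.MP_f7c28d_an

open MeasureTheory

/-- The torus `ℝ² / (L ℤ²)`. -/
abbrev Torus (L : ℝ) : Type := Fin 2 → AddCircle L

/-- Haar probability measure on the torus. -/
noncomputable def haar (L : ℝ) [Fact (0 < L)] : Measure (Torus L) :=
  Measure.pi fun _ => AddCircle.haarAddCircle

/-- Real square integrable functions on the torus. -/
abbrev L2 (L : ℝ) [Fact (0 < L)] : Type := Lp ℝ 2 (haar L)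

/-- The partial derivative `∂ᵢ f`. -/
noncomputable def pd {L : ℝ} (i : Fin 2) (f : Torus L → ℝ) (x : Torus L) : ℝ :=
  deriv (fun s : ℝ => f (x + Pi.single i (s : AddCircle L))) 0

/-- Real trigonometric polynomials. -/
def IsTrig {L : ℝ} (φ : Torus L → ℝ) : Prop :=
  ∃ (s : Finset (Fin 2 → ℤ)) (c : (Fin 2 → ℤ) → ℂ),
    ∀ x, (φ x : ℂ) = ∑ k ∈ s, c k * ∏ i, fourier (k i) (x i)

/-- Divergence free vector trigonometric polynomials. -/
def IsDivFree {L : ℝ} (w : Fin 2 → Torus L → ℝ) : Prop :=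
  (∀ j, IsTrig (w j)) ∧ ∀ x, ∑ j, pd j (w j) x = 0

/-- The space `H`: the `L²` closure of the divergence free mean-free trigonometric polynomials. -/
def spaceH (L : ℝ) [Fact (0 < L)] : Set (Fin 2 → L2 L) :=
  closure {u | ∃ w, IsDivFree w ∧ (∀ j, ∫ x, w j x ∂haar L = 0) ∧ ∀ j, u j =ᵐ[haar L] w j}

/-- The space `V` as the set of pairs `(u, ∇u)`: the `L² × L²` closure (that is, the `H¹` closure)
of the pairs `(w, ∇w)`, `w` a divergence free mean-free trigonometric polynomial. -/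
def graphV (L : ℝ) [Fact (0 < L)] : Set ((Fin 2 → L2 L) × (Fin 2 → Fin 2 → L2 L)) :=
  closure {p | ∃ w, IsDivFree w ∧ (∀ j, ∫ x, w j x ∂haar L = 0) ∧ (∀ j, p.1 j =ᵐ[haar L] w j) ∧
    ∀ i j, p.2 i j =ᵐ[haar L] pd i (w j)}

/-- `f' = F` in `𝒟'(ℝ)`. -/
def DistribDeriv (f F : ℝ → ℝ) : Prop :=
  LocallyIntegrable f ∧ LocallyIntegrable F ∧
    ∀ ψ : ℝ → ℝ, ContDiff ℝ (⊤ : ℕ∞) ψ → HasCompactSupport ψ →
      -∫ t, deriv ψ t * f t = ∫ t, ψ t * F t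

/-- The pairing `∫ f h`. -/
noncomputable def pair {L : ℝ} [Fact (0 < L)] (f h : Torus L → ℝ) : ℝ := ∫ x, f x * h x ∂haar L

/-- The pairing `∫ f g h`. -/
noncomputable def triple {L : ℝ} [Fact (0 < L)] (f g h : Torus L → ℝ) : ℝ :=
  ∫ x, f x * g x * h x ∂haar L

/-- The momentum equation tested against divergence free trigonometric polynomials;
`D t i j` is `∂ᵢ uⱼ (t)`. -/
def Momentum {L : ℝ} [Fact (0 < L)] (ν g : ℝ) (u : ℝ → Fin 2 → L2 L)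
    (D : ℝ → Fin 2 → Fin 2 → L2 L) (θ : ℝ → L2 L) : Prop :=
  ∀ w, IsDivFree w → DistribDeriv (fun t => ∑ j, pair (u t j) (w j)) fun t =>
    -(∑ i, ∑ j, triple (u t i) (D t i j) (w j)) - ν * (∑ i, ∑ j, pair (D t i j) (pd i (w j))) +
      g * pair (θ t) (w 1)

/-- The transport equation tested against trigonometric polynomials. -/
def Transport {L : ℝ} [Fact (0 < L)] (u : ℝ → Fin 2 → L2 L) (θ : ℝ → L2 L) : Prop :=
  ∀ φ, IsTrig φ → DistribDeriv (fun t => pair (θ t) φ) fun t => ∑ i, triple (u t i) (θ t) (pd i φ)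

/-- `u ∈ L²_loc(ℝ; V)` with gradient `D`. -/
def InL2locV {L : ℝ} [Fact (0 < L)] (u : ℝ → Fin 2 → L2 L) (D : ℝ → Fin 2 → Fin 2 → L2 L) : Prop :=
  (∀ᵐ t, (u t, D t) ∈ graphV L) ∧
    ∀ a b : ℝ, MemLp (fun t => (u t, D t)) 2 (volume.restrict (Set.Icc a b))

/-- Solutions on `ℝ` of the semi-dissipative Boussinesq system. -/
def IsSolution {L : ℝ} [Fact (0 < L)] (ν g : ℝ) (u : ℝ → Fin 2 → L2 L) (θ : ℝ → L2 L) : Prop :=
  (∀ t, u t ∈ spaceH L) ∧ (∀ j (v : L2 L), Continuous fun t => inner ℝ (u t j) v) ∧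
  (∀ t, ∫ x, θ t x ∂haar L = 0) ∧ (∀ v : L2 L, Continuous fun t => inner ℝ (θ t) v) ∧
  (∃ D, InL2locV u D ∧ Momentum ν g u D θ) ∧ Transport u θ

/-- The attractor: values at time `0` of solutions on `ℝ` that are bounded in `H × L²`. -/
def attractor (L : ℝ) [Fact (0 < L)] (ν g : ℝ) : Set ((Fin 2 → L2 L) × L2 L) :=
  {p | ∃ u θ, IsSolution ν g u θ ∧ u 0 = p.1 ∧ θ 0 = p.2 ∧ ∃ C, ∀ t, ‖u t‖ ≤ C ∧ ‖θ t‖ ≤ C}

end Pool.Agent.P.MP_f7c28d_an
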