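import Pool.Agent.P.MP_f7c28d_an.Galerkin

set_option autoImplicit false

/-! A bounded complete solution in Fourier variables with prescribed temperature at time zero. -/

namespace Pool.Agent.P.MP_f7c28d_an

open Set Filter Topology MeasureTheory Complex
open scoped NNReal ComplexConjugate

lemma WC.adv (κ : ℝ) {an fn : ℕ → ℝ → K → ℂ} {a f : ℝ → K → ℂ} {A B : ℝ}
    (han : ∀ n k, Continuous fun t => an n t k) (hfn : ∀ n k, Continuous fun t => fn n t k)
    (ha : ∀ k, Continuous fun t => a t k) (hf : ∀ k, Continuous fun t => f t k)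
    (hA : ∀ n t, Bd (an n t) A) (hB : ∀ n t, Bd (fn n t) B)
    (hE : ∀ T, 0 < T → ∃ C, ∀ᶠ n in atTop, En (an n) T C)
    (hla : ∀ t k, Tendsto (fun n => an n t k) atTop (𝓝 (a t k)))
    (hlf : ∀ t k, Tendsto (fun n => fn n t k) atTop (𝓝 (f t k))) (k : K) :
    WC (fun n t => adv κ (an n t) (fn n t) k) fun t => adv κ (a t) (f t) k := by
  have h : ∀ i, WC (fun n t => Pool.Agent.P.MP_f7c28d_an.cv (vel (an n t) i) (fn n t) k)
      fun t => Pool.Agent.P.MP_f7c28d_an.cv (vel (a t) i) (f t) k := fun i =>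
    WC.cv (fun n => continuous_vel (han n) i) hfn (continuous_vel ha i) hf
      (fun n t => (hA n t).vel i) hB (fun T hT => by
        obtain ⟨C, hC⟩ := hE T hT
        exact ⟨C, hC.mono fun n hn => hn.vel hT.le (han n) i⟩)
      (fun t p => ((((hla t p).add ((continuous_conj.tendsto _).comp (hla t (-p)))).const_mul
        _).div_const 2)) hlf k
  exact ((h 0).const_mul _).add ((h 1).const_mul _)

theorem exists_coeff_solution {κ ν g : ℝ} (hκ : 0 < κ) (hν : 0 < ν) {r : ℝ} {η : K → ℂ}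
    (hη : Bd η r) (hη0 : η 0 = 0) :
    ∃ (R : ℝ) (a b : ℝ → K → ℂ), b 0 = η ∧ (∀ t, b t 0 = 0) ∧
      (∀ k, Continuous fun t => a t k) ∧ (∀ k, Continuous fun t => b t k) ∧
      (∀ t, Bd (a t) R) ∧ (∀ t, Bd (b t) r) ∧ (∀ T, 0 < T → ∃ C, En a T C) ∧
      ∀ k ≠ 0, ∀ ψ : ℝ → ℝ, ContDiff ℝ 1 ψ → HasCompactSupport ψ →
        (-∫ t, ((deriv ψ t : ℝ) : ℂ) * a t k = ∫ t, (ψ t : ℂ) * Fa κ ν g (a t) (b t) k) ∧
        -∫ t, ((deriv ψ t : ℝ) : ℂ) * b t k = ∫ t, (ψ t : ℂ) * Fb κ (a t) (b t) k := by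
  obtain ⟨R, hR⟩ := galerkin (g := g) hκ hν hη
  choose a b hsupp hinit hbd hlip hder hen using
    fun N : ℕ => hR ((box N).erase 0) (by simp) (N + 1) (by positivity)
  choose Λ hΛ using exists_field_bound κ ν g R r
  obtain ⟨φ, G, hφ, hGc, hG⟩ := exists_subseq (ι := K ⊕ K)
    (fun n i t => Sum.elim (a n t) (b n t) i) (max R r) (fun n i t => by
      rcases i with k | k
      · exact ((hbd n t).1.norm_le k).trans (le_max_left _ _)
      · exact ((hbd n t).2.norm_le k).trans (le_max_right _ _))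
    (fun i => by
      rcases i with k | k
      · exact ⟨Λ k, fun n => (hlip n k _ (hΛ k)).1⟩
      · exact ⟨Λ k, fun n => (hlip n k _ (hΛ k)).2⟩)
  have hla : ∀ t k, Tendsto (fun n => a (φ n) t k) atTop (𝓝 (G (.inl k) t)) :=
    fun t k => hG (.inl k) t
  have hlb : ∀ t k, Tendsto (fun n => b (φ n) t k) atTop (𝓝 (G (.inr k) t)) :=
    fun t k => hG (.inr k) t
  have hca : ∀ n k, Continuous fun t => a (φ n) t k :=
    fun n k => (hlip _ k _ (hΛ k)).1.continuous
  have hcb : ∀ n k, Continuous fun t => b (φ n) t k :=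
    fun n k => (hlip _ k _ (hΛ k)).2.continuous
  have hmem : ∀ k : K, k ≠ 0 → ∀ᶠ n in atTop, k ∈ (box (φ n)).erase 0 := fun k hk =>
    (hφ.tendsto_atTop.eventually (eventually_mem_box k)).mono fun n hn =>
      Finset.mem_erase.2 ⟨hk, hn⟩
  have hlarge : ∀ T : ℝ, ∀ᶠ n in atTop, T < (φ n : ℝ) + 1 := fun T =>
    ((tendsto_natCast_atTop_atTop.comp hφ.tendsto_atTop).eventually (eventually_gt_atTop T)).mono
      fun n hn => by simp only [Function.comp_apply] at hn; linarith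
  have hE : ∀ T, 0 < T → ∃ C, ∀ᶠ n in atTop, En (a (φ n)) T C := fun T hT =>
    ⟨_, (hlarge T).mono fun n hn => hen _ T hT hn.le⟩
  have hb0 : ∀ t, G (.inr 0) t = 0 := fun t =>
    tendsto_nhds_unique (hlb t 0) (by
      simp only [fun n => (hsupp (φ n) t 0 (by simp)).2]
      exact tendsto_const_nhds)
  refine ⟨R, fun t k => G (.inl k) t, fun t k => G (.inr k) t, funext fun k => ?_, hb0,
    fun k => hGc _, fun k => hGc _, fun t => Bd.of_tendsto (fun n => (hbd _ t).1) (hla t),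
    fun t => Bd.of_tendsto (fun n => (hbd _ t).2) (hlb t), fun T hT => ?_,
    fun k hk ψ hψ hs => ?_⟩
  · by_cases hk : k = 0
    · rw [hk, hη0]
      exact hb0 0
    · exact tendsto_nhds_unique (hlb 0 k) (tendsto_const_nhds.congr'
        ((hmem k hk).mono fun n hn => (hinit _ k hn).symm))
  · obtain ⟨C, hC⟩ := hE T hT
    exact ⟨C, En.of_tendsto hca (fun n t => (hbd _ t).1) hC hla⟩
  · have wa := WC.of_tendsto (fun n => hca n k) (fun n t => (hbd _ t).1.norm_le k) (hla · k)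
    have wb := WC.of_tendsto (fun n => hcb n k) (fun n t => (hbd _ t).2.norm_le k) (hlb · k)
    have wj : ∀ j, WC (fun n t => adv κ (a (φ n) t) (fun m => tau m j * a (φ n) t m) k)
        fun t => adv κ (fun k => G (.inl k) t) (fun m => tau m j * G (.inl m) t) k := fun j =>
      WC.adv κ hca (fun n m => continuous_const.mul (hca n m)) (fun k => hGc _)
        (fun m => continuous_const.mul (hGc _)) (fun n t => (hbd _ t).1)
        (fun n t => (hbd _ t).1.tau_mul j) hE hla (fun t m => (hla t m).const_mul _) k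
    have wt : WC (fun n t => adv κ (a (φ n) t) (b (φ n) t) k)
        fun t => adv κ (fun k => G (.inl k) t) (fun m => G (.inr m) t) k :=
      WC.adv κ hca hcb (fun k => hGc _) (fun m => hGc _) (fun n t => (hbd _ t).1)
        (fun n t => (hbd _ t).2) hE hla hlb k
    have hd : ∀ T, 0 < T → ∀ᶠ n in atTop, ∀ t ∈ Icc (-T) T,
        HasDerivAt (fun t => a (φ n) t k) (Fa κ ν g (a (φ n) t) (b (φ n) t) k) t ∧
        HasDerivAt (fun t => b (φ n) t k) (Fb κ (a (φ n) t) (b (φ n) t) k) t := fun T _ => by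
      filter_upwards [hmem k hk, hlarge T] with n h1 h2 t ht
      exact hder _ t ⟨by linarith [ht.1], by linarith [ht.2]⟩ k h1
    constructor
    · exact weak_limit wa ((((wa.const_mul _).add ((wj 0).const_mul _)).add
        ((wj 1).const_mul _)).add (wb.const_mul _))
        (fun T hT => (hd T hT).mono fun n hn t ht => (hn t ht).1) hψ hs
    · exact weak_limit wb (wt.const_mul _)
        (fun T hT => (hd T hT).mono fun n hn t ht => (hn t ht).2) hψ hs

/-- Hermitian symmetrisation. -/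
noncomputable def sym (f : K → ℂ) (k : K) : ℂ := (f k + conj (f (-k))) / 2

def Herm (f : K → ℂ) : Prop := ∀ k, conj (f (-k)) = f k

lemma herm_sym (f : K → ℂ) : Herm (sym f) := fun k => by simp [sym, add_comm, conj_ofNat]

lemma Herm.sym {f : K → ℂ} (h : Herm f) : sym f = f := funext fun k => by
  rw [Pool.Agent.P.MP_f7c28d_an.sym, h k]
  ring

lemma Herm.vel {f : K → ℂ} (h : Herm f) (i : Fin 2) : vel f i = fun p => tau p i * f p :=
  funext fun k => by
    rw [Pool.Agent.P.MP_f7c28d_an.vel, h k]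
    ring

lemma vel_sym (f : K → ℂ) (i : Fin 2) : vel (sym f) i = vel f i := by
  rw [(herm_sym f).vel]
  funext k
  rw [vel, sym]
  ring

lemma norm_sym_sq_le (a : K → ℂ) (p : K) :
    ‖sym a p‖ ^ 2 ≤ (‖a p‖ ^ 2 + ‖a (-p)‖ ^ 2) / 2 := by
  have h1 : ‖sym a p‖ ≤ (‖a p‖ + ‖a (-p)‖) / 2 := by
    rw [sym, norm_div, norm_ofNat]
    gcongr
    simpa using norm_add_le (a p) (conj (a (-p)))
  have h2 : ‖sym a p‖ ^ 2 ≤ ((‖a p‖ + ‖a (-p)‖) / 2) ^ 2 := by gcongr
  nlinarith [sq_nonneg (‖a p‖ - ‖a (-p)‖)]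

lemma Bd.sym {a : K → ℂ} {R : ℝ} (h : Bd a R) : Bd (sym a) R := by
  refine ⟨h.1, fun F => (Finset.sum_le_sum fun p _ => norm_sym_sq_le a p).trans ?_⟩
  rw [← Finset.sum_div, Finset.sum_add_distrib]
  have := (h.comp (Equiv.neg K)).2 F
  simp only [Equiv.neg_apply] at this
  linarith [h.2 F]

lemma continuous_sym {a : ℝ → K → ℂ} (ha : ∀ k, Continuous fun t => a t k) (p : K) :
    Continuous fun t => sym (a t) p := by
  have h1 := ha p
  have h2 := ha (-p)
  unfold sym
  fun_prop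

lemma En.sym {a : ℝ → K → ℂ} {T C : ℝ} (hT : 0 ≤ T) (ha : ∀ k, Continuous fun t => a t k)
    (h : En a T C) : En (fun t => sym (a t)) T C := by
  intro G
  have h1 := h G
  have h2 := h (G.map (Equiv.neg K).toEmbedding)
  simp only [Finset.sum_map, Equiv.coe_toEmbedding, Equiv.neg_apply, nsq_neg] at h2
  have c1 : Continuous fun t => ∑ p ∈ G, nsq p * ‖a t p‖ ^ 2 :=
    continuous_finsetSum G fun p _ => continuous_const.mul ((ha p).norm.pow 2)
  have c2 : Continuous fun t => ∑ p ∈ G, nsq p * ‖a t (-p)‖ ^ 2 :=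
    continuous_finsetSum G fun p _ => continuous_const.mul ((ha _).norm.pow 2)
  refine (intervalIntegral.integral_mono_on (by linarith)
    (g := fun t => (∑ p ∈ G, nsq p * ‖a t p‖ ^ 2 + ∑ p ∈ G, nsq p * ‖a t (-p)‖ ^ 2) / 2)
    ((continuous_finsetSum G fun p _ => continuous_const.mul
      ((continuous_sym ha p).norm.pow 2)).intervalIntegrable _ _)
    (((c1.add c2).div_const 2).intervalIntegrable _ _) fun t _ => ?_).trans ?_
  · rw [← Finset.sum_add_distrib, Finset.sum_div]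
    refine Finset.sum_le_sum fun p _ => ?_
    have := mul_le_mul_of_nonneg_left (norm_sym_sq_le (a t) p) (nsq_nonneg p)
    exact this.trans (le_of_eq (by ring))
  · rw [intervalIntegral.integral_div, intervalIntegral.integral_add (c1.intervalIntegrable _ _)
      (c2.intervalIntegrable _ _)]
    linarith

lemma cv_sym {v f : K → ℂ} {A B : ℝ} (hv : Herm v) (hA : Bd v A) (hB : Bd f B) (k : K) :
    cv v (sym f) k = (cv v f k + conj (cv v f (-k))) / 2 := by
  have h1 : HasSum (fun p => v p * conj (f (-(k - p)))) (conj (cv v f (-k))) := by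
    have := (Equiv.neg K).hasSum_iff.2 ((summable_cv hA hB (-k)).hasSum.mapL conjCLE.toContinuousLinearMap)
    refine this.congr_fun fun p => ?_
    simp only [Function.comp_apply, Equiv.neg_apply, ContinuousLinearEquiv.coe_coe, conjCLE_apply,
      map_mul, hv p]
    congr 3
    abel
  refine (((summable_cv hA hB k).hasSum.add h1).div_const 2).tsum_eq.symm.trans ?_ |>.symm
  refine tsum_congr fun p => ?_
  rw [sym]
  ring

lemma adv_sym (κ : ℝ) {a f : K → ℂ} {A B : ℝ} (hA : Bd a A) (hB : Bd f B) (k : K) :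
    adv κ (sym a) (sym f) k = (adv κ a f k + conj (adv κ a f (-k))) / 2 := by
  simp only [adv, vel_sym, cv_sym (conj_vel a _) (hA.vel _) hB, map_add, map_mul, conj_I,
    conj_ofReal, Pi.neg_apply, Int.cast_neg, map_neg, map_intCast]
  ring

lemma sym_tau_mul (a : K → ℂ) (j : Fin 2) :
    (fun m => tau m j * sym a m) = sym fun m => tau m j * a m := by
  funext m
  simp only [sym, tau_neg, map_mul, conj_conj]
  ring

lemma Fa_sym (κ ν g : ℝ) {a b : K → ℂ} {A : ℝ} (hA : Bd a A) (k : K) :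
    Fa κ ν g (sym a) (sym b) k = (Fa κ ν g a b k + conj (Fa κ ν g a b (-k))) / 2 := by
  simp only [Fa, sym_tau_mul, adv_sym κ hA (hA.tau_mul _), tau_neg, map_add, map_mul, map_neg,
    conj_conj, conj_ofReal, nsq_neg]
  simp only [sym]
  ring

lemma Fb_sym (κ : ℝ) {a b : K → ℂ} {A B : ℝ} (hA : Bd a A) (hB : Bd b B) (k : K) :
    Fb κ (sym a) (sym b) k = (Fb κ a b k + conj (Fb κ a b (-k))) / 2 := by
  simp only [Fb, adv_sym κ hA hB, map_mul, map_neg, map_one]
  ring

lemma BM.of_continuous {f : ℝ → ℂ} (hf : Continuous f) {C : ℝ} (h : ∀ t, ‖f t‖ ≤ C) : BM f :=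
  ⟨hf.stronglyMeasurable, C, h⟩

lemma BM.adv (κ : ℝ) {a f : ℝ → K → ℂ} {A B : ℝ} (ha : ∀ k, Continuous fun t => a t k)
    (hf : ∀ k, Continuous fun t => f t k) (hA : ∀ t, Bd (a t) A) (hB : ∀ t, Bd (f t) B) (k : K) :
    BM fun t => adv κ (a t) (f t) k :=
  ((BM.cv (continuous_vel ha 0) hf (fun t => (hA t).vel 0) hB k).const_mul _).add
    ((BM.cv (continuous_vel ha 1) hf (fun t => (hA t).vel 1) hB k).const_mul _)

lemma BM.Fa (κ ν g : ℝ) {a b : ℝ → K → ℂ} {A B : ℝ} (ha : ∀ k, Continuous fun t => a t k)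
    (hb : ∀ k, Continuous fun t => b t k) (hA : ∀ t, Bd (a t) A) (hB : ∀ t, Bd (b t) B) (k : K) :
    BM fun t => Fa κ ν g (a t) (b t) k :=
  have h : ∀ j, BM fun t => Pool.Agent.P.MP_f7c28d_an.adv κ (a t) (fun m => tau m j * a t m) k :=
    fun j => BM.adv κ ha (fun m => continuous_const.mul (ha m)) hA (fun t => (hA t).tau_mul j) k
  ((((BM.of_continuous (ha k) fun t => (hA t).norm_le k).const_mul _).add
    ((h 0).const_mul _)).add ((h 1).const_mul _)).add
    ((BM.of_continuous (hb k) fun t => (hB t).norm_le k).const_mul _)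

lemma BM.Fb (κ : ℝ) {a b : ℝ → K → ℂ} {A B : ℝ} (ha : ∀ k, Continuous fun t => a t k)
    (hb : ∀ k, Continuous fun t => b t k) (hA : ∀ t, Bd (a t) A) (hB : ∀ t, Bd (b t) B) (k : K) :
    BM fun t => Fb κ (a t) (b t) k :=
  (BM.adv κ ha hb hA hB k).const_mul _

lemma integral_sym {f₁ f₂ : ℝ → ℂ} (h₁ : BM f₁) (h₂ : BM f₂) {ψ : ℝ → ℝ} (hψ : Continuous ψ)
    (hs : HasCompactSupport ψ) : ∫ t, (ψ t : ℂ) * ((f₁ t + conj (f₂ t)) / 2) =
      ((∫ t, (ψ t : ℂ) * f₁ t) + conj (∫ t, (ψ t : ℂ) * f₂ t)) / 2 := by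
  have h3 : Integrable fun t => conj ((ψ t : ℂ) * f₂ t) :=
    conjCLE.toContinuousLinearMap.integrable_comp (h₂.integrable_mul hψ hs)
  rw [← integral_conj, ← integral_add (h₁.integrable_mul hψ hs) h3, ← integral_div]
  refine integral_congr_ae (Eventually.of_forall fun t => ?_)
  simp only [map_mul, conj_ofReal]
  ring

theorem exists_herm_solution {κ ν g : ℝ} (hκ : 0 < κ) (hν : 0 < ν) {r : ℝ} {η : K → ℂ}
    (hη : Bd η r) (hη0 : η 0 = 0) (hηh : Herm η) :
    ∃ (R : ℝ) (a b : ℝ → K → ℂ), b 0 = η ∧ (∀ t, b t 0 = 0) ∧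
      (∀ t, Herm (a t)) ∧ (∀ t, Herm (b t)) ∧
      (∀ k, Continuous fun t => a t k) ∧ (∀ k, Continuous fun t => b t k) ∧
      (∀ t, Bd (a t) R) ∧ (∀ t, Bd (b t) r) ∧ (∀ T, 0 < T → ∃ C, En a T C) ∧
      ∀ k ≠ 0, ∀ ψ : ℝ → ℝ, ContDiff ℝ 1 ψ → HasCompactSupport ψ →
        (-∫ t, ((deriv ψ t : ℝ) : ℂ) * a t k = ∫ t, (ψ t : ℂ) * Fa κ ν g (a t) (b t) k) ∧
        -∫ t, ((deriv ψ t : ℝ) : ℂ) * b t k = ∫ t, (ψ t : ℂ) * Fb κ (a t) (b t) k := by
  obtain ⟨R, a, b, h0, hb0, ha, hb, hA, hB, hE, heq⟩ :=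
    exists_coeff_solution (g := g) hκ hν hη hη0
  refine ⟨R, fun t => sym (a t), fun t => sym (b t), by simp only [h0, hηh.sym],
    fun t => by simp [sym, hb0], fun t => herm_sym _, fun t => herm_sym _, continuous_sym ha,
    continuous_sym hb, fun t => (hA t).sym, fun t => (hB t).sym, fun T hT => ?_,
    fun k hk ψ hψ hs => ?_⟩
  · obtain ⟨C, hC⟩ := hE T hT
    exact ⟨C, hC.sym hT.le ha⟩
  · obtain ⟨e1, e2⟩ := heq k hk ψ hψ hs
    obtain ⟨e3, e4⟩ := heq (-k) (neg_ne_zero.2 hk) ψ hψ hs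
    have hd := hψ.continuous_deriv le_rfl
    constructor
    · simp only [fun t => Fa_sym κ ν g (b := b t) (hA t) k]
      rw [integral_sym (BM.Fa κ ν g ha hb hA hB k) (BM.Fa κ ν g ha hb hA hB (-k))
        hψ.continuous hs, ← e1, ← e3]
      simp only [sym]
      rw [integral_sym (BM.of_continuous (ha k) fun t => (hA t).norm_le k)
        (BM.of_continuous (ha (-k)) fun t => (hA t).norm_le (-k)) hd hs.deriv, map_neg]
      ring
    · simp only [fun t => Fb_sym κ (hA t) (hB t) k]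
      rw [integral_sym (BM.Fb κ ha hb hA hB k) (BM.Fb κ ha hb hA hB (-k))
        hψ.continuous hs, ← e2, ← e4]
      simp only [sym]
      rw [integral_sym (BM.of_continuous (hb k) fun t => (hB t).norm_le k)
        (BM.of_continuous (hb (-k)) fun t => (hB t).norm_le (-k)) hd hs.deriv, map_neg]
      ring

end Pool.Agent.P.MP_f7c28d_an
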