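import Pool.Agent.P.MP_f7c28d_an.Defs
import Pool.Agent.P.MP_f7c28d_an.Limit

set_option autoImplicit false

/-! Fourier series on the torus of period `L`. -/

namespace Pool.Agent.P.MP_f7c28d_an

open Set Filter Topology MeasureTheory Complex Algebra Submodule
open scoped NNReal ComplexConjugate ENNReal

variable {L : ℝ}

/-- The characters of the torus. -/
noncomputable def e (k : K) : C(Torus L, ℂ) where
  toFun x := ∏ i, fourier (k i) (x i)
  continuous_toFun := by fun_prop

lemma e_apply (k : K) (x : Torus L) : e k x = ∏ i, fourier (k i) (x i) := rfl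

lemma e_neg (k : K) (x : Torus L) : e (-k) x = conj (e k x) := by
  simp only [e_apply, Pi.neg_apply, fourier_neg, map_prod]

lemma e_add (m n : K) (x : Torus L) : e (m + n) x = e m x * e n x := by
  simp only [e_apply, Pi.add_apply, fourier_add, ← Finset.prod_mul_distrib]

lemma e_zero (x : Torus L) : e 0 x = 1 := by
  simp only [e_apply, Pi.zero_apply, fourier_zero, Finset.prod_const_one]

lemma norm_e (k : K) (x : Torus L) : ‖e k x‖ = 1 := by
  simp only [e_apply, fourier_apply, norm_prod, Circle.norm_coe, Finset.prod_const_one]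

noncomputable def eAlg (L : ℝ) : StarSubalgebra ℂ C(Torus L, ℂ) where
  toSubalgebra := Algebra.adjoin ℂ (range e)
  star_mem' := by
    change Algebra.adjoin ℂ (range e) ≤ star (Algebra.adjoin ℂ (range e))
    refine adjoin_le ?_
    rintro _ ⟨n, rfl⟩
    refine subset_adjoin ⟨-n, ?_⟩
    ext1 x
    simp only [e_neg, starRingEnd_apply, ContinuousMap.star_apply]

lemma eAlg_coe : (eAlg L).toSubalgebra.toSubmodule = span ℂ (range e) := by
  apply adjoin_eq_span_of_subset
  refine .trans (fun x ↦ Submonoid.closure_induction (fun _ ↦ id) ⟨0, ?_⟩ ?_) subset_span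
  · ext z
    simp only [e_zero, ContinuousMap.one_apply]
  · rintro _ _ _ _ ⟨m, rfl⟩ ⟨n, rfl⟩
    refine ⟨m + n, ?_⟩
    ext z
    simp only [e_add, ContinuousMap.mul_apply]

variable [hL : Fact (0 < L)]

lemma eAlg_separatesPoints : (eAlg L).SeparatesPoints := by
  intro x y hxy
  rw [Ne, funext_iff, not_forall] at hxy
  obtain ⟨i, hi⟩ := hxy
  refine ⟨_, ⟨e (Pi.single i 1), subset_adjoin ⟨Pi.single i 1, rfl⟩, rfl⟩, ?_⟩
  have h : ∀ z : Torus L, e (Pi.single i 1) z = fourier 1 (z i) := by
    intro z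
    fin_cases i <;> simp [e_apply]
  change e (Pi.single i 1) x ≠ e (Pi.single i 1) y
  rw [h, h, fourier_one, fourier_one]
  exact fun hh => hi (AddCircle.injective_toCircle hL.out.ne' (Circle.ext hh))

lemma span_e_closure : (span ℂ (range (e (L := L)))).topologicalClosure = ⊤ := by
  rw [← eAlg_coe]
  exact congr_arg (Subalgebra.toSubmodule <| StarSubalgebra.toSubalgebra ·)
    (ContinuousMap.starSubalgebra_topologicalClosure_eq_top_of_separatesPoints _
      eAlg_separatesPoints)

instance : IsProbabilityMeasure (haar L) := by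
  unfold haar
  infer_instance

instance : (haar L).WeaklyRegular := inferInstance

noncomputable abbrev eLp (k : K) : Lp ℂ 2 (haar L) :=
  ContinuousMap.toLp (E := ℂ) 2 (haar L) ℂ (e k)

lemma coeFn_eLp (k : K) : eLp k =ᵐ[haar L] e k := ContinuousMap.coeFn_toLp (haar L) (e k)

lemma integral_e (k : K) : ∫ x, e k x ∂haar L = if k = 0 then 1 else 0 := by
  split_ifs with h
  · simp [h, e_zero]
  · simp only [e_apply, haar]
    rw [integral_fintype_prod_eq_prod (f := fun i (y : AddCircle L) => fourier (k i) y)]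
    obtain ⟨i, hi⟩ := Function.ne_iff.mp h
    apply Finset.prod_eq_zero (Finset.mem_univ i)
    have := (orthonormal_iff_ite.mp <| orthonormal_fourier (T := L)) 0 (k i)
    have hi' : ¬ (0 : ℤ) = k i := Ne.symm hi
    simpa only [ContinuousMap.inner_toLp, ← fourier_neg, ← fourier_add, neg_zero, add_zero,
      if_neg hi'] using! this

lemma orthonormal_e : Orthonormal ℂ (eLp (L := L)) := by
  rw [orthonormal_iff_ite]
  intro m n
  simp only [ContinuousMap.inner_toLp, ← e_neg, ← e_add, integral_e, add_neg_eq_zero, eq_comm]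

noncomputable def eBasis (L : ℝ) [Fact (0 < L)] : HilbertBasis K ℂ (Lp ℂ 2 (haar L)) :=
  HilbertBasis.mk orthonormal_e (by
    simpa only [map_span, ContinuousLinearMap.coe_coe, ← range_comp, Function.comp_def] using
      ((ContinuousMap.toLp_denseRange ℂ (haar L) ℂ (p := 2)
        (by simp)).topologicalClosure_map_submodule span_e_closure).ge)

lemma coe_eBasis : ⇑(eBasis L) = eLp := HilbertBasis.coe_mk _ _

/-- Fourier coefficients. -/
noncomputable def coef (f : Torus L → ℂ) (k : K) : ℂ := ∫ x, e (-k) x * f x ∂haar L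

lemma coef_congr {f h : Torus L → ℂ} (H : f =ᵐ[haar L] h) : coef f = coef h :=
  funext fun _ => integral_congr_ae (H.mono fun _ hx => by simp only [hx])

lemma repr_eBasis (f : Lp ℂ 2 (haar L)) (k : K) : (eBasis L).repr f k = coef f k := by
  rw [(eBasis L).repr_apply_apply f k, L2.inner_def, coe_eBasis]
  apply integral_congr_ae
  filter_upwards [coeFn_eLp k] with _ ht
  rw [ht, e_neg, RCLike.inner_apply, mul_comm]

lemma parseval {f h : Torus L → ℂ} (hf : MemLp f 2 (haar L)) (hh : MemLp h 2 (haar L)) :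
    HasSum (fun k => conj (coef f k) * coef h k) (∫ x, conj (f x) * h x ∂haar L) := by
  have h1 := (eBasis L).hasSum_inner_mul_inner (hf.toLp f) (hh.toLp h)
  have h2 : inner ℂ (hf.toLp f) (hh.toLp h) = ∫ x, conj (f x) * h x ∂haar L := by
    rw [L2.inner_def]
    apply integral_congr_ae
    filter_upwards [hf.coeFn_toLp, hh.coeFn_toLp] with x h1 h2
    rw [h1, h2, RCLike.inner_apply, mul_comm]
  rw [h2] at h1
  refine h1.congr_fun fun k => ?_
  rw [← coef_congr hf.coeFn_toLp, ← coef_congr hh.coeFn_toLp, ← repr_eBasis, ← repr_eBasis,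
    HilbertBasis.repr_apply_apply, HilbertBasis.repr_apply_apply, inner_conj_symm]

/-- Fourier coefficients of a real function. -/
noncomputable def cf (f : Torus L → ℝ) : K → ℂ := coef fun x => (f x : ℂ)

lemma herm_cf (f : Torus L → ℝ) : Herm (cf f) := fun k => by
  rw [cf, coef, coef, ← integral_conj]
  simp [e_neg]

lemma memLp_L2 (f : L2 L) : MemLp (fun x => (f x : ℂ)) 2 (haar L) := (Lp.memLp f).ofReal

lemma integral_e_mul (f h : L2 L) (k : K) :
    ∫ x, e (-k) x * ((f x : ℂ) * h x) ∂haar L = cv (cf f) (cf h) k := by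
  have h1 : MemLp (fun x => e (-k) x * (f x : ℂ)) 2 (haar L) :=
    (memLp_L2 f).of_le
      ((e (-k)).continuous.aestronglyMeasurable.mul (memLp_L2 f).aestronglyMeasurable)
      (Eventually.of_forall fun x => by simp [norm_e])
  have h2 := parseval (memLp_L2 h) h1
  have h3 := (Equiv.subRight k).hasSum_iff.2 h2
  rw [cv]
  refine Eq.trans ?_ ((h3.congr_fun fun p => ?_).tsum_eq.symm)
  · refine integral_congr_ae (Eventually.of_forall fun x => ?_)
    simp only [conj_ofReal]
    ring
  · have h4 := herm_cf (h : Torus L → ℝ) (k - p)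
    rw [neg_sub] at h4
    simp only [Function.comp_apply, Equiv.subRight_apply]
    rw [mul_comm, ← h4]
    congr 1
    refine integral_congr_ae (Eventually.of_forall fun x => ?_)
    beta_reduce
    rw [← mul_assoc, ← e_add, show -(p - k) + -k = -p by abel]

lemma hasSum_cf (f : L2 L) : HasSum (fun k => ‖cf f k‖ ^ 2) (‖f‖ ^ 2) := by
  have h1 := (parseval (memLp_L2 f) (memLp_L2 f)).mapL reCLM
  have h2 : ‖f‖ ^ 2 = reCLM (∫ x, conj (f x : ℂ) * (f x : ℂ) ∂haar L) := by
    rw [← real_inner_self_eq_norm_sq, L2.inner_def]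
    simp only [conj_ofReal, ← ofReal_mul, integral_complex_ofReal, reCLM_apply, ofReal_re]
    simp [sq]
  rw [h2]
  refine h1.congr_fun fun k => ?_
  simp only [reCLM_apply]
  rw [conj_mul']
  simp [cf, ← ofReal_pow]

lemma bd_cf (f : L2 L) : Bd (cf f) ‖f‖ :=
  ⟨norm_nonneg _, fun F => sum_le_hasSum F (fun _ _ => by positivity) (hasSum_cf f)⟩

lemma norm_le_of_bd (f : L2 L) {R : ℝ} (h : Bd (cf f) R) : ‖f‖ ≤ R :=
  (pow_le_pow_iff_left₀ (norm_nonneg _) h.1 two_ne_zero).1
    (hasSum_le_of_sum_le (hasSum_cf f) h.2)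

lemma integrable_e_mul {f : Torus L → ℂ} (hf : Integrable f (haar L)) (k : K) :
    Integrable (fun x => e k x * f x) (haar L) :=
  hf.bdd_mul (c := 1) (e k).continuous.aestronglyMeasurable
    (Eventually.of_forall fun x => (norm_e k x).le)

lemma integrable_L2 (f : L2 L) : Integrable (fun x => (f x : ℂ)) (haar L) :=
  ((Lp.memLp f).integrable one_le_two).ofReal

lemma cf_injective {f h : L2 L} (H : cf f = cf h) : f = h := by
  have h1 : cf (f - h : L2 L) = 0 := by
    funext k
    have : cf (f - h : L2 L) k = cf f k - cf h k := by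
      simp only [cf, coef]
      rw [← integral_sub (integrable_e_mul (integrable_L2 f) _)
        (integrable_e_mul (integrable_L2 h) _)]
      apply integral_congr_ae
      filter_upwards [Lp.coeFn_sub f h] with x hx
      rw [hx, Pi.sub_apply]
      push_cast
      ring
    rw [this, H, sub_self, Pi.zero_apply]
  have h2 := norm_le_of_bd (f - h) (R := 0) ⟨le_rfl, fun F => by rw [h1]; simp⟩
  exact sub_eq_zero.1 (norm_le_zero_iff.1 h2)

/-- Real part on `L²`. -/
noncomputable def reL (L : ℝ) [Fact (0 < L)] : Lp ℂ 2 (haar L) →L[ℝ] L2 L :=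
  reCLM.compLpL 2 (haar L)

lemma coeFn_reL (f : Lp ℂ 2 (haar L)) : reL L f =ᵐ[haar L] fun x => (f x).re :=
  reCLM.coeFn_compLpL f

lemma cf_reL (f : Lp ℂ 2 (haar L)) : cf (reL L f) = sym (coef f) := by
  funext k
  have hi : Integrable f (haar L) := (Lp.memLp f).integrable one_le_two
  have h3 : Integrable (fun x => conj (e (- -k) x * f x)) (haar L) :=
    conjCLE.toContinuousLinearMap.integrable_comp (integrable_e_mul hi _)
  simp only [cf, sym, coef]
  rw [← integral_conj, ← integral_add (integrable_e_mul hi _) h3, ← integral_div]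
  apply integral_congr_ae
  filter_upwards [coeFn_reL f] with x hx
  rw [hx, map_mul, ← e_neg, neg_neg, re_eq_add_conj]
  ring

open Classical in
/-- The real `L²` function with given Fourier coefficients. -/
noncomputable def rs (L : ℝ) [Fact (0 < L)] (c : K → ℂ) : L2 L :=
  if h : Memℓp c 2 then reL L ((eBasis L).repr.symm ⟨c, h⟩) else 0

lemma Bd.memℓp {c : K → ℂ} {R : ℝ} (h : Bd c R) : Memℓp c 2 :=
  memℓp_gen (by simpa using h.summable)

lemma cf_rs {c : K → ℂ} {R : ℝ} (h : Bd c R) (hc : Herm c) : cf (rs L c) = c := by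
  rw [rs, dif_pos h.memℓp, cf_reL]
  have : coef ((eBasis L).repr.symm ⟨c, h.memℓp⟩ : Lp ℂ 2 (haar L)) = c := by
    funext k
    rw [← repr_eBasis, LinearIsometryEquiv.apply_symm_apply]
  rw [this, hc.sym]

lemma norm_rs_le {c : K → ℂ} {R : ℝ} (h : Bd c R) (hc : Herm c) : ‖rs L c‖ ≤ R :=
  norm_le_of_bd _ (by rwa [cf_rs h hc])

lemma rs_cf (f : L2 L) : rs L (cf f) = f := cf_injective (cf_rs (bd_cf f) (herm_cf f))

lemma tendsto_box : Tendsto box atTop atTop :=
  tendsto_atTop.2 fun F => by
    filter_upwards [(Finset.eventually_all F).2 fun p _ => eventually_mem_box p] with N hN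
    exact fun p hp => hN p hp

/-- Partial sums as elements of `L²`. -/
noncomputable def trL (L : ℝ) [Fact (0 < L)] (c : K → ℂ) (N : ℕ) : L2 L :=
  reL L (∑ k ∈ box N, c k • eLp k)

lemma tendsto_trL {c : K → ℂ} {R : ℝ} (h : Bd c R) :
    Tendsto (trL L c) atTop (𝓝 (rs L c)) := by
  rw [rs, dif_pos h.memℓp]
  have h1 := (eBasis L).hasSum_repr_symm ⟨c, h.memℓp⟩
  rw [coe_eBasis] at h1
  exact ((reL L).continuous.tendsto _).comp (h1.comp tendsto_box)

lemma continuous_trL {c : ℝ → K → ℂ} (hc : ∀ k, Continuous fun t => c t k) (N : ℕ) :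
    Continuous fun t => trL L (c t) N :=
  (reL L).continuous.comp (continuous_finsetSum _ fun k _ => (hc k).smul continuous_const)

/-- Partial sums as functions. -/
noncomputable def tr (c : K → ℂ) (N : ℕ) (x : Torus L) : ℝ := (∑ k ∈ box N, c k * e k x).re

lemma coeFn_trL (c : K → ℂ) (N : ℕ) : trL L c N =ᵐ[haar L] tr c N := by
  have h1 : (∑ k ∈ box N, c k • eLp k : Lp ℂ 2 (haar L)) =
      ContinuousMap.toLp (E := ℂ) 2 (haar L) ℂ (∑ k ∈ box N, c k • e k) := by
    simp only [map_sum, map_smul]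
  filter_upwards [coeFn_reL (∑ k ∈ box N, c k • eLp k : Lp ℂ 2 (haar L)),
    ContinuousMap.coeFn_toLp (p := 2) (𝕜 := ℂ) (haar L) (∑ k ∈ box N, c k • e (L := L) k)]
    with x hx hy
  rw [trL, hx, h1, hy, tr]
  simp

omit hL in
lemma ofReal_tr {c : K → ℂ} (hc : Herm c) (N : ℕ) (x : Torus L) :
    (tr c N x : ℂ) = ∑ k ∈ box N, c k * e k x := by
  rw [tr, ← conj_eq_iff_re, map_sum]
  refine Finset.sum_equiv (Equiv.neg K) (fun k => ?_) fun k _ => ?_
  · simp only [box, Fintype.mem_piFinset, Finset.mem_Icc, Equiv.neg_apply, Pi.neg_apply]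
    exact forall_congr' fun i => by omega
  · have := hc (-k)
    rw [neg_neg] at this
    rw [map_mul, Equiv.neg_apply, e_neg, this]

lemma continuous_cv {f : K → ℂ} {h : ℝ → K → ℂ} {A B : ℝ} (hf : Bd f A)
    (hh : ∀ k, Continuous fun t => h t k) (hB : ∀ t, Bd (h t) B) (k : K) :
    Continuous fun t => cv f (h t) k := by
  refine TendstoUniformly.continuous (p := (atTop : Filter (Finset K)))
    (F := fun F t => ∑ p ∈ F, f p * h t (k - p)) ?_
    (Eventually.frequently (Eventually.of_forall fun F =>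
      continuous_finsetSum F fun p _ => continuous_const.mul (hh _)))
  have h1 : Tendsto (fun F : Finset K => Real.sqrt (∑' p : {p // p ∉ F}, ‖f p‖ ^ 2) * B) atTop
      (𝓝 (Real.sqrt 0 * B)) :=
    (tendsto_tsum_compl_atTop_zero fun p => ‖f p‖ ^ 2).sqrt.mul_const B
  rw [Real.sqrt_zero, zero_mul] at h1
  rw [Metric.tendstoUniformly_iff]
  intro ε hε
  filter_upwards [h1.eventually (gt_mem_nhds hε)] with F hF t
  rw [dist_eq_norm]
  refine (norm_cv_sub_le hf (hB t) F ⟨Real.sqrt_nonneg _, fun G => ?_⟩ k).trans_lt hF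
  rw [Real.sq_sqrt (tsum_nonneg fun _ => by positivity)]
  have h2 : ∑' p : {p // p ∉ F}, ‖f p‖ ^ 2 = ∑' p, ‖if p ∈ F then 0 else f p‖ ^ 2 := by
    refine (tsum_subtype {p | p ∉ F} fun p => ‖f p‖ ^ 2).trans (tsum_congr fun p => ?_)
    by_cases hp : p ∈ F <;> simp [hp]
  rw [h2]
  refine Summable.sum_le_tsum G (fun _ _ => by positivity) (Bd.summable (hf.mono fun p => ?_))
  split_ifs <;> simp

lemma continuous_inner_rs {c : ℝ → K → ℂ} {B : ℝ} (hc : ∀ k, Continuous fun t => c t k)
    (hB : ∀ t, Bd (c t) B) (hh : ∀ t, Herm (c t)) (v : L2 L) :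
    Continuous fun t => inner ℝ (rs L (c t)) v := by
  have h1 : ∀ t, inner ℝ (rs L (c t)) v = (cv (cf v) (c t) 0).re := by
    intro t
    conv_rhs => rw [← cf_rs (L := L) (hB t) (hh t), ← integral_e_mul]
    rw [L2.inner_def]
    simp only [neg_zero, e_zero, one_mul, ← ofReal_mul, integral_complex_ofReal, ofReal_re]
    simp
  simp only [h1]
  exact continuous_re.comp (continuous_cv (bd_cf v) hc hB 0)

end Pool.Agent.P.MP_f7c28d_an
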