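import Pool.Agent.P.MP_f7c28d_an.Brouwer

set_option autoImplicit false

/-! A two point boundary value problem for a dissipative / conservative ODE system. -/

namespace Pool.Agent.P.MP_f7c28d_an

open Metric Set Filter Topology
open scoped NNReal

theorem shoot {U Θ : Type*} [NormedAddCommGroup U] [InnerProductSpace ℝ U] [FiniteDimensional ℝ U]
    [NormedAddCommGroup Θ] [InnerProductSpace ℝ Θ] [FiniteDimensional ℝ Θ]
    (Fu : U × Θ → U) (Ft : U × Θ → Θ) (hu : ContDiff ℝ 1 Fu) (ht : ContDiff ℝ 1 Ft)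
    (R ρ : ℝ) (hR : 0 < R)
    (hskew : ∀ u θ, inner ℝ (Ft (u, θ)) θ = 0)
    (hdiss : ∀ u θ, ‖u‖ = R → ‖θ‖ ≤ ρ → inner ℝ (Fu (u, θ)) u < 0)
    (η : Θ) (hη : ‖η‖ < ρ) (T : ℝ) (hT : 0 < T) :
    ∃ (u : ℝ → U) (θ : ℝ → Θ), θ 0 = η ∧ ∀ t ∈ Icc (-T) T, ‖u t‖ ≤ R ∧ ‖θ t‖ = ‖η‖ ∧
      HasDerivWithinAt u (Fu (u t, θ t)) (Icc (-T) T) t ∧
      HasDerivWithinAt θ (Ft (u t, θ t)) (Icc (-T) T) t := by
  have hρ : 0 < ρ := (norm_nonneg _).trans_lt hη
  let χ : ContDiffBump (0 : U × Θ) := ⟨max R ρ, max R ρ + 1, by positivity, by linarith⟩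
  set F : U × Θ → U × Θ := fun x => χ x • (Fu x, Ft x) with hF
  have hFc : ContDiff ℝ 1 F := χ.contDiff.smul (hu.prodMk ht)
  have hFs : HasCompactSupport F := χ.hasCompactSupport.smul_right
  obtain ⟨C, hC⟩ := hFc.continuous.bounded_above_of_compact_support hFs
  have hC0 : 0 ≤ C := (norm_nonneg _).trans (hC 0)
  set a : ℝ≥0 := ⟨C * (2 * T) + ρ, by positivity⟩ with ha
  obtain ⟨K, hK⟩ : ∃ K, LipschitzOnWith K F (closedBall (0 : U × Θ) a) :=
    ContDiffOn.exists_lipschitzOnWith (n := 1) hFc.contDiffOn one_ne_zero (convex_closedBall _ _)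
      (isCompact_closedBall _ _)
  have hTT : -T ≤ T := by linarith
  have hPL : IsPicardLindelof (fun _ : ℝ => F) (⟨-T, left_mem_Icc.2 hTT⟩ : Icc (-T) T) 0 a
      ρ.toNNReal C.toNNReal K := by
    refine ⟨fun _ _ => hK, fun _ _ => continuousOn_const, fun _ _ x _ => ?_, ?_⟩
    · rw [Real.coe_toNNReal C hC0]
      exact hC x
    · rw [Real.coe_toNNReal C hC0, Real.coe_toNNReal ρ hρ.le]
      have : max (T - -T) (-T - -T) = 2 * T := by
        rw [max_eq_left (by linarith)]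
        ring
      simp only [this]
      change C * (2 * T) ≤ C * (2 * T) + ρ - ρ
      linarith
  obtain ⟨α, hα, hαc⟩ := hPL.exists_forall_mem_closedBall_eq_hasDerivWithinAt_continuousOn
  rw [Real.coe_toNNReal ρ hρ.le] at hα hαc
  have hmem : ∀ ξ : Θ, ‖ξ‖ ≤ ρ → ((0 : U), ξ) ∈ closedBall (0 : U × Θ) ρ := by
    intro ξ hξ
    simpa [Prod.norm_def, hρ.le] using hξ
  have hright : ∀ {f : ℝ → ℝ} {f' : ℝ} {t : ℝ}, t ∈ Ico (-T) T →
      HasDerivWithinAt f f' (Icc (-T) T) t → HasDerivWithinAt f f' (Ici t) t :=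
    fun ht h => h.mono_of_mem_nhdsWithin (Icc_mem_nhdsGE_of_mem ht)
  have hfst : ∀ {f : ℝ → U × Θ} {f' : U × Θ} {s : Set ℝ} {t : ℝ}, HasDerivWithinAt f f' s t →
      HasDerivWithinAt (fun t => (f t).1) f'.1 s t := fun h =>
    (ContinuousLinearMap.fst ℝ U Θ).hasFDerivAt.comp_hasDerivWithinAt _ h
  have hsnd : ∀ {f : ℝ → U × Θ} {f' : U × Θ} {s : Set ℝ} {t : ℝ}, HasDerivWithinAt f f' s t →
      HasDerivWithinAt (fun t => (f t).2) f'.2 s t := fun h =>
    (ContinuousLinearMap.snd ℝ U Θ).hasFDerivAt.comp_hasDerivWithinAt _ h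
  have hsol : ∀ ξ : Θ, ‖ξ‖ ≤ ρ → ∀ t ∈ Icc (-T) T,
      ‖(α ((0, ξ), t)).1‖ ≤ R ∧ ‖(α ((0, ξ), t)).2‖ = ‖ξ‖ := by
    intro ξ hξ
    obtain ⟨h0, hd⟩ := hα _ (hmem ξ hξ)
    have hd1 : ∀ t ∈ Icc (-T) T, HasDerivWithinAt (fun t => ‖(α ((0, ξ), t)).1‖ ^ 2)
        (2 * inner ℝ (α ((0, ξ), t)).1 (F (α ((0, ξ), t))).1) (Icc (-T) T) t :=
      fun t ht => (hfst (hd t ht)).norm_sq
    have hd2 : ∀ t ∈ Icc (-T) T, HasDerivWithinAt (fun t => ‖(α ((0, ξ), t)).2‖ ^ 2)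
        0 (Icc (-T) T) t := by
      intro t ht
      refine (hsnd (hd t ht)).norm_sq.congr_deriv ?_
      simp only [hF, Prod.smul_snd, inner_smul_right]
      rw [real_inner_comm, hskew (α ((0, ξ), t)).1 (α ((0, ξ), t)).2]
      simp
    have e2 : ∀ t ∈ Icc (-T) T, ‖(α ((0, ξ), t)).2‖ = ‖ξ‖ := by
      intro t ht
      have := constant_of_has_deriv_right_zero (HasDerivWithinAt.continuousOn hd2)
        (fun s hs => hright hs (hd2 s (Ico_subset_Icc_self hs))) t ht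
      simp only [h0] at this
      exact (pow_left_inj₀ (norm_nonneg _) (norm_nonneg _) two_ne_zero).1 this
    intro t ht
    refine ⟨?_, e2 t ht⟩
    have := image_le_of_deriv_right_lt_deriv_boundary (HasDerivWithinAt.continuousOn hd1)
      (fun s hs => hright hs (hd1 s (Ico_subset_Icc_self hs))) (B := fun _ => R ^ 2)
      (B' := fun _ => 0) (by simp only [h0]; simp; positivity)
      (fun x => hasDerivAt_const x _) (fun s hs hsR => by
        have h1 : ‖(α ((0, ξ), s)).1‖ = R :=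
          (pow_left_inj₀ (norm_nonneg _) hR.le two_ne_zero).1 hsR
        have h2 : ‖(α ((0, ξ), s)).2‖ ≤ ρ := (e2 s (Ico_subset_Icc_self hs)).trans_le hξ
        have h3 : χ (α ((0, ξ), s)) = 1 := χ.one_of_mem_closedBall (by
          rw [mem_closedBall_zero_iff, Prod.norm_def]
          exact max_le_max h1.le h2)
        simp only [hF, h3, one_smul]
        have := hdiss _ _ h1 h2
        rw [real_inner_comm] at this
        linarith) ht
    exact (pow_le_pow_iff_left₀ (norm_nonneg _) hR.le two_ne_zero).1 this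
  set τ : Θ → ℝ := fun ξ => -T * max 0 ((‖ξ‖ - ‖η‖) / (ρ - ‖η‖)) with hτ
  have hτm : ∀ ξ : Θ, ‖ξ‖ ≤ ρ → τ ξ ∈ Icc (-T) T := by
    intro ξ hξ
    have h1 : max 0 ((‖ξ‖ - ‖η‖) / (ρ - ‖η‖)) ≤ 1 :=
      max_le zero_le_one ((div_le_one (by linarith)).2 (by linarith))
    have h2 : 0 ≤ max 0 ((‖ξ‖ - ‖η‖) / (ρ - ‖η‖)) := le_max_left _ _
    constructor <;> simp only [hτ] <;> nlinarith
  obtain ⟨ξ, hξ, hz⟩ := exists_zero ρ hρ (fun ξ : Θ => (α ((0, ξ), τ ξ)).2 - η) (by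
      refine ContinuousOn.sub (continuous_snd.comp_continuousOn ?_) continuousOn_const
      refine hαc.comp (Continuous.continuousOn (by simp only [hτ]; fun_prop)) fun ξ hξ => ?_
      have : ‖ξ‖ ≤ ρ := by simpa using hξ
      exact ⟨hmem ξ this, hτm ξ this⟩) (by
      intro ξ hξ
      have h1 : τ ξ = -T := by
        simp only [hτ, hξ]
        rw [div_self (by linarith)]
        simp
      have h0 := (hα _ (hmem ξ hξ.le)).1
      simp only at h0
      simp only [h1, h0, inner_sub_left, real_inner_self_eq_norm_sq, hξ]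
      have := real_inner_le_norm η ξ
      rw [hξ] at this
      nlinarith)
  rw [sub_eq_zero] at hz
  have hn : ‖ξ‖ = ‖η‖ := by rw [← hz, (hsol ξ hξ _ (hτm ξ hξ)).2]
  have hτ0 : τ ξ = 0 := by simp [hτ, hn]
  rw [hτ0] at hz
  refine ⟨fun t => (α ((0, ξ), t)).1, fun t => (α ((0, ξ), t)).2, hz, fun t ht => ?_⟩
  obtain ⟨h1, h2⟩ := hsol ξ hξ t ht
  have h3 : χ (α ((0, ξ), t)) = 1 := χ.one_of_mem_closedBall (by
    rw [mem_closedBall_zero_iff, Prod.norm_def]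
    exact max_le_max h1 (h2.trans_le hξ))
  have hd := (hα _ (hmem ξ hξ)).2 t ht
  simp only [hF, h3, one_smul] at hd
  exact ⟨h1, h2.trans hn, hfst hd, hsnd hd⟩

end Pool.Agent.P.MP_f7c28d_an
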