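import Pool.Agent.P.MP_f7c28d_an.Conv
import Pool.Agent.P.MP_f7c28d_an.Shoot

set_option autoImplicit false

/-! The Galerkin system in Fourier variables. -/

namespace Pool.Agent.P.MP_f7c28d_an

open Set Filter Topology MeasureTheory Complex
open scoped NNReal ComplexConjugate

/-- The unit vector `i k^⊥ / |k|` (zero for `k = 0`). -/
noncomputable def tau (k : K) (j : Fin 2) : ℂ :=
  I * ((![-(k 1), k 0] j : ℤ) : ℂ) / (Real.sqrt (nsq k) : ℝ)

lemma tau_zero (j : Fin 2) : tau 0 j = 0 := by simp [tau, nsq]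

lemma tau_div (k : K) : (k 0 : ℂ) * tau k 0 + k 1 * tau k 1 = 0 := by
  simp [tau]
  ring

lemma tau_neg (k : K) (j : Fin 2) : tau (-k) j = conj (tau k j) := by
  fin_cases j <;> simp [tau, nsq_neg, neg_div]

lemma sqrt_nsq_sq (k : K) : ((Real.sqrt (nsq k) : ℝ) : ℂ) ^ 2 = (k 0 : ℂ) ^ 2 + (k 1 : ℂ) ^ 2 := by
  rw [← ofReal_pow, Real.sq_sqrt (nsq_nonneg k)]
  simp [nsq]

lemma norm_tau_le (k : K) (j : Fin 2) : ‖tau k j‖ ≤ 1 := by
  rw [tau, norm_div, norm_mul, norm_I, one_mul, norm_real, Real.norm_of_nonneg (Real.sqrt_nonneg _),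
    norm_intCast]
  refine div_le_one_of_le₀ (Real.abs_le_sqrt ?_) (Real.sqrt_nonneg _)
  fin_cases j <;> simp [nsq] <;> positivity

lemma tau_proj {k : K} (hk : k ≠ 0) {c : Fin 2 → ℂ} (hc : (k 0 : ℂ) * c 0 + k 1 * c 1 = 0)
    (i : Fin 2) : (c 0 * tau k 0 + c 1 * tau k 1) * conj (tau k i) = c i := by
  have h0 : ((Real.sqrt (nsq k) : ℝ) : ℂ) ≠ 0 := by
    have := one_le_nsq hk
    exact_mod_cast (Real.sqrt_pos.2 (by linarith)).ne'
  have h1 := sqrt_nsq_sq k
  fin_cases i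
  · simp [tau]
    field_simp
    rw [h1]
    linear_combination (-(k 0 : ℂ)) * hc + ((k 1 : ℂ) * (c 1 * k 0 - c 0 * k 1)) * I_sq
  · simp [tau]
    field_simp
    rw [h1]
    linear_combination (-(k 1 : ℂ)) * hc + ((k 0 : ℂ) * (c 0 * k 1 - c 1 * k 0)) * I_sq

/-- Fourier coefficients of the real divergence free velocity attached to an amplitude. -/
noncomputable def vel (a : K → ℂ) (i : Fin 2) (p : K) : ℂ := tau p i * (a p + conj (a (-p))) / 2

lemma conj_vel (a : K → ℂ) (i : Fin 2) (p : K) : conj (vel a i (-p)) = vel a i p := by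
  simp [vel, tau_neg, add_comm, conj_ofNat]

lemma vel_div (a : K → ℂ) (p : K) : (p 0 : ℂ) * vel a 0 p + p 1 * vel a 1 p = 0 := by
  simp only [vel]
  linear_combination ((a p + conj (a (-p))) / 2) * tau_div p

lemma norm_vel_sq_le (a : K → ℂ) (i : Fin 2) (p : K) :
    ‖vel a i p‖ ^ 2 ≤ (‖a p‖ ^ 2 + ‖a (-p)‖ ^ 2) / 2 := by
  have h1 : ‖vel a i p‖ ≤ (‖a p‖ + ‖a (-p)‖) / 2 := by
    rw [vel, norm_div, norm_mul, norm_ofNat]
    gcongr
    refine (mul_le_of_le_one_left (norm_nonneg _) (norm_tau_le p i)).trans ?_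
    simpa using norm_add_le (a p) (conj (a (-p)))
  have h2 : ‖vel a i p‖ ^ 2 ≤ ((‖a p‖ + ‖a (-p)‖) / 2) ^ 2 := by gcongr
  nlinarith [sq_nonneg (‖a p‖ - ‖a (-p)‖)]

lemma Bd.vel {a : K → ℂ} {R : ℝ} (h : Bd a R) (i : Fin 2) : Bd (vel a i) R := by
  refine ⟨h.1, fun F => (Finset.sum_le_sum fun p _ => norm_vel_sq_le a i p).trans ?_⟩
  rw [← Finset.sum_div, Finset.sum_add_distrib]
  have := (h.comp (Equiv.neg K)).2 F
  simp only [Equiv.neg_apply] at this
  linarith [h.2 F]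

lemma Bd.tau_mul {a : K → ℂ} {R : ℝ} (h : Bd a R) (j : Fin 2) :
    Bd (fun m => tau m j * a m) R :=
  h.mono fun m => by
    rw [norm_mul]
    exact mul_le_of_le_one_left (norm_nonneg _) (norm_tau_le m j)

lemma continuous_vel {a : ℝ → K → ℂ} (ha : ∀ k, Continuous fun t => a t k) (i : Fin 2) (p : K) :
    Continuous fun t => vel (a t) i p := by
  have h1 := ha p
  have h2 := ha (-p)
  unfold vel
  fun_prop

lemma En.vel {a : ℝ → K → ℂ} {T C : ℝ} (hT : 0 ≤ T) (ha : ∀ k, Continuous fun t => a t k)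
    (h : En a T C) (i : Fin 2) : En (fun t => vel (a t) i) T C := by
  intro G
  have h1 := h G
  have h2 := h (G.map (Equiv.neg K).toEmbedding)
  simp only [Finset.sum_map, Equiv.coe_toEmbedding, Equiv.neg_apply, nsq_neg] at h2
  have c1 : Continuous fun t => ∑ p ∈ G, nsq p * ‖a t p‖ ^ 2 :=
    continuous_finsetSum G fun p _ => continuous_const.mul ((ha p).norm.pow 2)
  have c2 : Continuous fun t => ∑ p ∈ G, nsq p * ‖a t (-p)‖ ^ 2 :=
    continuous_finsetSum G fun p _ => continuous_const.mul ((ha _).norm.pow 2)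
  refine (intervalIntegral.integral_mono_on (by linarith)
    (g := fun t => (∑ p ∈ G, nsq p * ‖a t p‖ ^ 2 + ∑ p ∈ G, nsq p * ‖a t (-p)‖ ^ 2) / 2)
    ((continuous_finsetSum G fun p _ => continuous_const.mul
      ((continuous_vel ha i p).norm.pow 2)).intervalIntegrable _ _)
    (((c1.add c2).div_const 2).intervalIntegrable _ _) fun t _ => ?_).trans ?_
  · rw [← Finset.sum_add_distrib, Finset.sum_div]
    refine Finset.sum_le_sum fun p _ => ?_
    have := mul_le_mul_of_nonneg_left (norm_vel_sq_le (a t) i p) (nsq_nonneg p)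
    exact this.trans (le_of_eq (by ring))
  · rw [intervalIntegral.integral_div, intervalIntegral.integral_add (c1.intervalIntegrable _ _)
      (c2.intervalIntegrable _ _)]
    linarith

/-- Fourier coefficient of `div (v f)`. -/
noncomputable def adv (κ : ℝ) (a f : K → ℂ) (k : K) : ℂ :=
  I * κ * k 0 * cv (vel a 0) f k + I * κ * k 1 * cv (vel a 1) f k

noncomputable def Fa (κ ν g : ℝ) (a b : K → ℂ) (k : K) : ℂ :=
  -(ν * κ ^ 2 * nsq k : ℝ) * a k + -conj (tau k 0) * adv κ a (fun m => tau m 0 * a m) k +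
    -conj (tau k 1) * adv κ a (fun m => tau m 1 * a m) k + g * conj (tau k 1) * b k

noncomputable def Fb (κ : ℝ) (a b : K → ℂ) (k : K) : ℂ := -1 * adv κ a b k

noncomputable def mat (κ : ℝ) (a : K → ℂ) (k m : K) : ℂ :=
  I * κ * k 0 * vel a 0 (k - m) + I * κ * k 1 * vel a 1 (k - m)

lemma conj_mat (κ : ℝ) (a : K → ℂ) (k m : K) : conj (mat κ a m k) = -mat κ a k m := by
  have h0 := conj_vel a 0 (k - m)
  have h1 := conj_vel a 1 (k - m)
  rw [neg_sub] at h0 h1
  have h2 := vel_div a (k - m)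
  simp only [Pi.sub_apply, Int.cast_sub] at h2
  simp only [mat, map_add, map_mul, conj_I, conj_ofReal, map_intCast, h0, h1]
  linear_combination (I * κ) * h2

lemma adv_eq_sum (κ : ℝ) (a : K → ℂ) {f : K → ℂ} (S : Finset K) (hS : ∀ m ∉ S, f m = 0) (k : K) :
    adv κ a f k = ∑ m ∈ S, mat κ a k m * f m := by
  rw [adv, cv_eq_sum S hS, cv_eq_sum S hS, Finset.mul_sum, Finset.mul_sum,
    ← Finset.sum_add_distrib]
  exact Finset.sum_congr rfl fun m _ => by rw [mat]; ring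

lemma skew_adv (κ : ℝ) (a : K → ℂ) {f : K → ℂ} (S : Finset K) (hS : ∀ m ∉ S, f m = 0) :
    (∑ k ∈ S, conj (f k) * adv κ a f k).re = 0 := by
  simp_rw [adv_eq_sum κ a S hS, Finset.mul_sum]
  set z := ∑ k ∈ S, ∑ m ∈ S, conj (f k) * (mat κ a k m * f m) with hz
  have : conj z = -z := by
    conv_lhs => rw [hz, Finset.sum_comm]
    simp only [hz, map_sum, map_mul, conj_conj, conj_mat, ← Finset.sum_neg_distrib]
    exact Finset.sum_congr rfl fun k _ => Finset.sum_congr rfl fun m _ => by ring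
  have h := congrArg re this
  simp only [conj_re, neg_re] at h
  linarith

lemma energy_Fa (κ ν g : ℝ) {a b : K → ℂ} {A B : ℝ} (S : Finset K) (hS : ∀ m ∉ S, a m = 0)
    (hA : Bd a A) (hB : Bd b B) :
    (∑ k ∈ S, conj (a k) * Fa κ ν g a b k).re ≤
      -(ν * κ ^ 2) * ∑ k ∈ S, nsq k * ‖a k‖ ^ 2 + |g| * (A * B) := by
  have h0 := skew_adv κ a (f := fun m => tau m 0 * a m) S fun m hm => by simp [hS m hm]
  have h1 := skew_adv κ a (f := fun m => tau m 1 * a m) S fun m hm => by simp [hS m hm]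
  have h2 : ∑ k ∈ S, conj (a k) * Fa κ ν g a b k =
      ((-(ν * κ ^ 2) * ∑ k ∈ S, nsq k * ‖a k‖ ^ 2 : ℝ) : ℂ) -
      ∑ k ∈ S, conj (tau k 0 * a k) * adv κ a (fun m => tau m 0 * a m) k -
      ∑ k ∈ S, conj (tau k 1 * a k) * adv κ a (fun m => tau m 1 * a m) k +
      g * ∑ k ∈ S, conj (tau k 1 * a k) * b k := by
    push_cast
    simp only [Finset.mul_sum, ← Finset.sum_sub_distrib, ← Finset.sum_add_distrib]
    refine Finset.sum_congr rfl fun k _ => ?_
    rw [← conj_mul' (a k)]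
    simp only [Fa, map_mul]
    push_cast
    ring
  rw [h2, add_re, sub_re, sub_re, h0, h1, ofReal_re, sub_zero, sub_zero]
  gcongr
  refine (re_le_norm _).trans ?_
  rw [norm_mul, norm_real, Real.norm_eq_abs]
  gcongr
  exact (norm_sum_le _ _).trans
    (sum_norm_mul_le ((hA.tau_mul 1).mono fun k => by rw [RCLike.norm_conj]) hB S)

lemma exists_field_bound (κ ν g A B : ℝ) (k : K) : ∃ Λ : ℝ≥0, ∀ a b, Bd a A → Bd b B →
    ‖Fa κ ν g a b k‖ ≤ Λ ∧ ‖Fb κ a b k‖ ≤ Λ := by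
  have hadv : ∀ C, ∃ L : ℝ, ∀ a f, Bd a A → Bd f C → ‖adv κ a f k‖ ≤ L := fun C =>
    ⟨‖I * κ * k 0‖ * (A * C) + ‖I * κ * k 1‖ * (A * C), fun a f ha hf => by
      refine (norm_add_le _ _).trans ?_
      rw [norm_mul _ (cv _ _ _), norm_mul _ (cv _ _ _)]
      gcongr
      exacts [norm_cv_le (ha.vel 0) hf k, norm_cv_le (ha.vel 1) hf k]⟩
  obtain ⟨L1, h1⟩ := hadv A
  obtain ⟨L2, h2⟩ := hadv B
  refine ⟨(max (‖(-(ν * κ ^ 2 * nsq k : ℝ) : ℂ)‖ * A + ‖-conj (tau k 0)‖ * L1 +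
    ‖-conj (tau k 1)‖ * L1 + ‖g * conj (tau k 1)‖ * B) L2).toNNReal, fun a b ha hb => ⟨?_, ?_⟩⟩
  · refine le_trans ?_ ((le_max_left _ _).trans (Real.le_coe_toNNReal _))
    refine (norm_add_le _ _).trans (add_le_add (norm_add₃_le.trans ?_) ?_)
    · rw [norm_mul _ (a k), norm_mul _ (adv _ _ _ _), norm_mul _ (adv _ _ _ _)]
      gcongr
      exacts [ha.norm_le k, h1 _ _ ha (ha.tau_mul 0), h1 _ _ ha (ha.tau_mul 1)]
    · rw [norm_mul _ (b k)]
      gcongr
      exact hb.norm_le k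
  · refine le_trans ?_ ((le_max_right _ _).trans (Real.le_coe_toNNReal _))
    simpa [Fb] using h2 a b ha hb

lemma sum_le_of_support {f : K → ℝ} (h0 : ∀ k, 0 ≤ f k) (S : Finset K) (hS : ∀ k ∉ S, f k = 0)
    (G : Finset K) : ∑ k ∈ G, f k ≤ ∑ k ∈ S, f k :=
  have h : HasSum f (∑ k ∈ S, f k) := hasSum_sum_of_ne_finset_zero hS
  sum_le_hasSum G (fun k _ => h0 k) h

/-- Extension by zero. -/
noncomputable def ext {S : Finset K} (x : EuclideanSpace ℂ S) (k : K) : ℂ :=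
  if h : k ∈ S then x ⟨k, h⟩ else 0

lemma ext_of_notMem {S : Finset K} (x : EuclideanSpace ℂ S) (k : K) (h : k ∉ S) : ext x k = 0 := by
  simp [ext, h]

lemma ext_coe {S : Finset K} (x : EuclideanSpace ℂ S) (k : S) : ext x k = x k := by
  simp [ext]

lemma sum_ext {S : Finset K} (x : EuclideanSpace ℂ S) : ∑ k ∈ S, ‖ext x k‖ ^ 2 = ‖x‖ ^ 2 := by
  rw [EuclideanSpace.norm_sq_eq, ← Finset.sum_coe_sort S]
  simp [ext_coe]

lemma bd_ext {S : Finset K} (x : EuclideanSpace ℂ S) {R : ℝ} (h : ‖x‖ ≤ R) : Bd (ext x) R := by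
  refine ⟨(norm_nonneg _).trans h, fun F => ?_⟩
  calc _ ≤ ∑ k ∈ S, ‖ext x k‖ ^ 2 := sum_le_of_support (fun _ => by positivity) S
        (fun k h => by simp [ext_of_notMem x k h]) F
    _ ≤ _ := by rw [sum_ext]; gcongr

/-- Extension by zero at a fixed frequency, as a continuous linear map. -/
noncomputable def extL (S : Finset K) (k : K) : EuclideanSpace ℂ S →L[ℝ] ℂ :=
  if h : k ∈ S then PiLp.proj 2 (fun _ : S => ℂ) ⟨k, h⟩ else 0

lemma extL_apply {S : Finset K} (x : EuclideanSpace ℂ S) (k : K) : extL S k x = ext x k := by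
  unfold extL ext
  split_ifs <;> simp

lemma contDiff_ext (S : Finset K) (k : K) :
    ContDiff ℝ 1 fun x : EuclideanSpace ℂ S => ext x k := by
  simpa only [← extL_apply] using (extL S k).contDiff

lemma inner_toLp {S : Finset K} (x : EuclideanSpace ℂ S) (F : K → ℂ) :
    inner ℝ (WithLp.toLp 2 fun k : S => F k : EuclideanSpace ℂ S) x =
      (∑ k ∈ S, conj (ext x k) * F k).re := by
  rw [real_inner_comm, PiLp.inner_apply, ← Finset.sum_coe_sort S, re_sum]
  refine Finset.sum_congr rfl fun k _ => ?_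
  rw [Complex.inner, ext_coe, mul_comm]

lemma contDiff_adv {X : Type*} [NormedAddCommGroup X] [NormedSpace ℝ X] (κ : ℝ) (S : Finset K)
    {a f : X → K → ℂ} (ha : ∀ k, ContDiff ℝ 1 fun x => a x k)
    (hf : ∀ k, ContDiff ℝ 1 fun x => f x k) (hS : ∀ x, ∀ m ∉ S, f x m = 0) (k : K) :
    ContDiff ℝ 1 fun x => adv κ (a x) (f x) k := by
  simp_rw [fun x => adv_eq_sum κ (a x) S (hS x)]
  have hv : ∀ i p, ContDiff ℝ 1 fun x => vel (a x) i p := fun i p =>
    (contDiff_const.mul ((ha p).add (conjCLE.contDiff.comp (ha (-p))))).div_const 2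
  exact ContDiff.sum fun m _ =>
    ((contDiff_const.mul (hv 0 _)).add (contDiff_const.mul (hv 1 _))).mul (hf m)

theorem galerkin {κ ν g : ℝ} (hκ : 0 < κ) (hν : 0 < ν) {r : ℝ} {η : K → ℂ} (hη : Bd η r) :
    ∃ R : ℝ, ∀ (S : Finset K) (_ : (0 : K) ∉ S) (T : ℝ) (_ : 0 < T), ∃ a b : ℝ → K → ℂ,
      (∀ t, ∀ k ∉ S, a t k = 0 ∧ b t k = 0) ∧ (∀ k ∈ S, b 0 k = η k) ∧
      (∀ t, Bd (a t) R ∧ Bd (b t) r) ∧
      (∀ k, ∀ Λ : ℝ≥0, (∀ a b, Bd a R → Bd b r → ‖Fa κ ν g a b k‖ ≤ Λ ∧ ‖Fb κ a b k‖ ≤ Λ) →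
        LipschitzWith Λ (fun t => a t k) ∧ LipschitzWith Λ fun t => b t k) ∧
      (∀ t ∈ Ioo (-T) T, ∀ k ∈ S, HasDerivAt (fun t => a t k) (Fa κ ν g (a t) (b t) k) t ∧
        HasDerivAt (fun t => b t k) (Fb κ (a t) (b t) k) t) ∧
      ∀ T', 0 < T' → T' ≤ T →
        En a T' ((R ^ 2 + 4 * T' * (|g| * (R * r))) / (2 * (ν * κ ^ 2))) := by
  have hα : 0 < ν * κ ^ 2 := by positivity
  have hr := hη.1
  set R := (|g| * (r + 1) + 1) / (ν * κ ^ 2) with hRdef
  have hR : 0 < R := by positivity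
  refine ⟨R, fun S hS T hT => ?_⟩
  set Fu : EuclideanSpace ℂ S × EuclideanSpace ℂ S → EuclideanSpace ℂ S :=
    fun x => WithLp.toLp 2 fun k : S => Fa κ ν g (ext x.1) (ext x.2) k with hFu
  set Ft : EuclideanSpace ℂ S × EuclideanSpace ℂ S → EuclideanSpace ℂ S :=
    fun x => WithLp.toLp 2 fun k : S => Fb κ (ext x.1) (ext x.2) k with hFt
  have e1 : ∀ k, ContDiff ℝ 1 fun x : EuclideanSpace ℂ S × EuclideanSpace ℂ S => ext x.1 k :=
    fun k => (contDiff_ext S k).comp contDiff_fst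
  have e2 : ∀ k, ContDiff ℝ 1 fun x : EuclideanSpace ℂ S × EuclideanSpace ℂ S => ext x.2 k :=
    fun k => (contDiff_ext S k).comp contDiff_snd
  have hu : ContDiff ℝ 1 Fu := by
    refine (contDiff_piLp 2).2 fun k => ?_
    have h : ∀ j, ContDiff ℝ 1 fun x : EuclideanSpace ℂ S × EuclideanSpace ℂ S =>
        adv κ (ext x.1) (fun m => tau m j * ext x.1 m) k := fun j =>
      contDiff_adv κ S e1 (fun m => contDiff_const.mul (e1 m))
        (fun x m hm => by simp [ext_of_notMem _ m hm]) k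
    exact (((contDiff_const.mul (e1 k)).add (contDiff_const.mul (h 0))).add
      (contDiff_const.mul (h 1))).add (contDiff_const.mul (e2 k))
  have ht : ContDiff ℝ 1 Ft := (contDiff_piLp 2).2 fun k =>
    contDiff_const.mul (contDiff_adv κ S e1 e2 (fun x m hm => ext_of_notMem _ m hm) k)
  set η' : EuclideanSpace ℂ S := WithLp.toLp 2 fun k : S => η k with hη'
  have hη'r : ‖η'‖ ≤ r := by
    refine (pow_le_pow_iff_left₀ (norm_nonneg _) hr two_ne_zero).1 ?_
    rw [EuclideanSpace.norm_sq_eq]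
    have := hη.2 S
    rwa [← Finset.sum_coe_sort S] at this
  have hen : ∀ (u θ : EuclideanSpace ℂ S) (B : ℝ), ‖u‖ ≤ R → ‖θ‖ ≤ B → inner ℝ (Fu (u, θ)) u ≤
      -(ν * κ ^ 2) * ∑ k ∈ S, nsq k * ‖ext u k‖ ^ 2 + |g| * (R * B) := fun u θ B h1 h2 => by
    rw [hFu, inner_toLp u (Fa κ ν g (ext u) (ext θ))]
    exact energy_Fa κ ν g S (ext_of_notMem u) (bd_ext u h1) (bd_ext θ h2)
  obtain ⟨u, θ, h0, hsol⟩ := shoot Fu Ft hu ht R (r + 1) hR (fun u θ => by
      rw [hFt, inner_toLp θ (Fb κ (ext u) (ext θ))]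
      have := skew_adv κ (ext u) S (ext_of_notMem θ)
      simp only [Fb, neg_mul, one_mul, mul_neg, Finset.sum_neg_distrib, neg_re, this, neg_zero])
    (fun u θ h1 h2 => by
      refine (hen u θ _ h1.le h2).trans_lt ?_
      have h3 : R ^ 2 ≤ ∑ k ∈ S, nsq k * ‖ext u k‖ ^ 2 := by
        rw [← h1, ← sum_ext]
        exact Finset.sum_le_sum fun k hk =>
          le_mul_of_one_le_left (by positivity) (one_le_nsq fun h => hS (h ▸ hk))
      have h4 : ν * κ ^ 2 * R = |g| * (r + 1) + 1 := by rw [hRdef]; field_simp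
      nlinarith [mul_le_mul_of_nonneg_left h3 hα.le]) η' (by linarith) T hT
  have hle : -T ≤ T := by linarith
  have hda : ∀ t ∈ Icc (-T) T, ∀ k ∈ S, HasDerivWithinAt (fun t => ext (u t) k)
      (Fa κ ν g (ext (u t)) (ext (θ t)) k) (Icc (-T) T) t ∧ HasDerivWithinAt (fun t => ext (θ t) k)
      (Fb κ (ext (u t)) (ext (θ t)) k) (Icc (-T) T) t := by
    intro t ht k hk
    have h1 := (extL S k).hasFDerivAt.comp_hasDerivWithinAt t (hsol t ht).2.2.1
    have h2 := (extL S k).hasFDerivAt.comp_hasDerivWithinAt t (hsol t ht).2.2.2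
    simp only [Function.comp_def, extL_apply] at h1 h2
    exact ⟨h1.congr_deriv (ext_coe _ ⟨k, hk⟩), h2.congr_deriv (ext_coe _ ⟨k, hk⟩)⟩
  have hbd : ∀ t ∈ Icc (-T) T, Bd (ext (u t)) R ∧ Bd (ext (θ t)) r := fun t ht =>
    ⟨bd_ext _ (hsol t ht).1, bd_ext _ ((hsol t ht).2.1.trans_le hη'r)⟩
  set c : ℝ → ℝ := fun t => projIcc (-T) T hle t with hc
  have hcm : ∀ t, c t ∈ Icc (-T) T := fun t => (projIcc (-T) T hle t).2
  have hcid : ∀ t ∈ Icc (-T) T, c t = t := fun t ht => by simp [hc, projIcc_of_mem hle ht]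
  have hcL : LipschitzWith 1 c := by
    simpa [Function.comp_def] using (LipschitzWith.subtype_val _).comp (LipschitzWith.projIcc hle)
  refine ⟨fun t => ext (u (c t)), fun t => ext (θ (c t)),
    fun t k hk => ⟨ext_of_notMem _ k hk, ext_of_notMem _ k hk⟩, fun k hk => ?_,
    fun t => hbd _ (hcm t), fun k Λ hΛ => ?_, fun t ht k hk => ?_, fun T' hT' hTT G => ?_⟩
  · beta_reduce
    rw [hcid 0 ⟨by linarith, hT.le⟩, h0]
    exact ext_coe η' ⟨k, hk⟩
  · by_cases hk : k ∈ S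
    · have l1 := (convex_Icc (-T) T).lipschitzOnWith_of_nnnorm_hasDerivWithin_le (C := Λ)
        (fun t ht => (hda t ht k hk).1) fun t ht => (hΛ _ _ (hbd t ht).1 (hbd t ht).2).1
      have l2 := (convex_Icc (-T) T).lipschitzOnWith_of_nnnorm_hasDerivWithin_le (C := Λ)
        (fun t ht => (hda t ht k hk).2) fun t ht => (hΛ _ _ (hbd t ht).1 (hbd t ht).2).2
      constructor
      · simpa [Function.comp_def] using
          lipschitzOnWith_univ.1 (l1.comp hcL.lipschitzOnWith fun t _ => hcm t)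
      · simpa [Function.comp_def] using
          lipschitzOnWith_univ.1 (l2.comp hcL.lipschitzOnWith fun t _ => hcm t)
    · simp only [ext_of_notMem _ k hk]
      exact ⟨LipschitzWith.const' _, LipschitzWith.const' _⟩
  · have hn : Icc (-T) T ∈ 𝓝 t := Icc_mem_nhds ht.1 ht.2
    have hev : ∀ᶠ s in 𝓝 t, c s = s := by
      filter_upwards [hn] with s hs using hcid s hs
    simp only [hcid t (Ioo_subset_Icc_self ht)]
    obtain ⟨h1, h2⟩ := hda t (Ioo_subset_Icc_self ht) k hk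
    exact ⟨(h1.hasDerivAt hn).congr_of_eventuallyEq (hev.mono fun s hs => by simp only [hs]),
      (h2.hasDerivAt hn).congr_of_eventuallyEq (hev.mono fun s hs => by simp only [hs])⟩
  · have hsub : Icc (-T') T' ⊆ Icc (-T) T := Icc_subset_Icc (by linarith) hTT
    have hle' : -T' ≤ T' := by linarith
    have huc : ContinuousOn u (Icc (-T') T') := fun t ht =>
      ((hsol t (hsub ht)).2.2.1.continuousWithinAt).mono hsub
    have hEc : ∀ G : Finset K, ContinuousOn (fun t => ∑ k ∈ G, nsq k * ‖ext (u t) k‖ ^ 2)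
        (Icc (-T') T') := fun G => continuousOn_finsetSum G fun k _ =>
      continuousOn_const.mul (((contDiff_ext S k).continuous.comp_continuousOn huc).norm.pow 2)
    have hEi : ∀ G : Finset K, IntervalIntegrable
        (fun t => ∑ k ∈ G, nsq k * ‖ext (u t) k‖ ^ 2) volume (-T') T' := fun G =>
      (hEc G).intervalIntegrable_of_Icc hle'
    have h1 := intervalIntegral.sub_le_integral_of_hasDeriv_right_of_le hle'
      (g := fun t => ‖u t‖ ^ 2) (g' := fun t => 2 * inner ℝ (u t) (Fu (u t, θ t)))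
      (φ := fun t => 2 * (-(ν * κ ^ 2) * ∑ k ∈ S, nsq k * ‖ext (u t) k‖ ^ 2 + |g| * (R * r)))
      (huc.norm.pow 2)
      (fun t ht => ((hsol t (hsub (Ioo_subset_Icc_self ht))).2.2.1.norm_sq.hasDerivAt
        (mem_of_superset (Icc_mem_nhds ht.1 ht.2) hsub)).hasDerivWithinAt)
      ((continuousOn_const.mul ((continuousOn_const.mul (hEc S)).add
        continuousOn_const)).integrableOn_Icc)
      (fun t ht => by
        have hs := hsol t (hsub (Ioo_subset_Icc_self ht))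
        have := hen (u t) (θ t) r hs.1 (hs.2.1.trans_le hη'r)
        rw [real_inner_comm] at this
        linarith)
    rw [intervalIntegral.integral_const_mul, intervalIntegral.integral_add ((hEi S).const_mul _)
      intervalIntegrable_const, intervalIntegral.integral_const_mul,
      intervalIntegral.integral_const, smul_eq_mul] at h1
    have h2 : ‖u (-T')‖ ^ 2 ≤ R ^ 2 := by
      gcongr
      exact (hsol _ (hsub (left_mem_Icc.2 hle'))).1
    have h3 : ∫ t in -T'..T', ∑ k ∈ G, nsq k * ‖ext (u (c t)) k‖ ^ 2 ≤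
        ∫ t in -T'..T', ∑ k ∈ S, nsq k * ‖ext (u t) k‖ ^ 2 := by
      rw [intervalIntegral.integral_congr (g := fun t => ∑ k ∈ G, nsq k * ‖ext (u t) k‖ ^ 2)
        fun t ht => by rw [uIcc_of_le hle'] at ht; simp only [hcid t (hsub ht)]]
      refine intervalIntegral.integral_mono_on hle' (hEi G) (hEi S) fun t _ => ?_
      exact sum_le_of_support (fun k => mul_nonneg (nsq_nonneg k) (by positivity)) S
        (fun k h => by simp [ext_of_notMem _ k h]) G
    refine h3.trans ?_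
    rw [le_div_iff₀ (by positivity)]
    nlinarith [sq_nonneg ‖u T'‖]

end Pool.Agent.P.MP_f7c28d_an
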