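import Pool.Agent.P.MP_f7c28d_an.Trig

set_option autoImplicit false

/-! Every mean-free temperature occurs on the attractor. -/

namespace Pool.Agent.P.MP_f7c28d_an

open Set Filter Topology MeasureTheory Complex
open scoped NNReal ComplexConjugate ENNReal

lemma BM.locallyIntegrable_of_ae {f : ℝ → ℝ} {g : ℝ → ℂ} (hg : BM g)
    (hf : ∀ᵐ t, (f t : ℂ) = g t) : LocallyIntegrable f := by
  intro x
  obtain ⟨s, hs, hi⟩ := hg.locallyIntegrable x
  refine ⟨s, hs, (Integrable.re hi).congr (ae_restrict_of_ae (hf.mono fun t ht => ?_))⟩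
  simp [← ht]

lemma distrib_of_complex {f F : ℝ → ℝ} {s : Finset K} {γ : K → ℂ} {g G : K → ℝ → ℂ}
    (hg : ∀ k, BM (g k)) (hG : ∀ k, BM (G k)) (hf : ∀ᵐ t, (f t : ℂ) = ∑ k ∈ s, γ k * g k t)
    (hF : ∀ᵐ t, (F t : ℂ) = ∑ k ∈ s, γ k * G k t)
    (h : ∀ k ∈ s, γ k ≠ 0 → ∀ ψ : ℝ → ℝ, ContDiff ℝ 1 ψ → HasCompactSupport ψ →
      -∫ t, ((deriv ψ t : ℝ) : ℂ) * g k t = ∫ t, (ψ t : ℂ) * G k t) : DistribDeriv f F := by
  refine ⟨(BM.sum s fun k _ => (hg k).const_mul _).locallyIntegrable_of_ae hf,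
    (BM.sum s fun k _ => (hG k).const_mul _).locallyIntegrable_of_ae hF, fun ψ hψ hs => ?_⟩
  have hψ1 : ContDiff ℝ 1 ψ := hψ.of_le (by exact_mod_cast le_top)
  have key : ∀ (χ : ℝ → ℝ) (_ : Continuous χ) (_ : HasCompactSupport χ) (f : ℝ → ℝ)
      (g : K → ℝ → ℂ) (_ : ∀ k, BM (g k)) (_ : ∀ᵐ t, (f t : ℂ) = ∑ k ∈ s, γ k * g k t),
      ((∫ t, χ t * f t : ℝ) : ℂ) = ∑ k ∈ s, γ k * ∫ t, (χ t : ℂ) * g k t := by
    intro χ hχ hχs f g hg hf
    simp only [← integral_const_mul]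
    rw [← integral_finsetSum _ fun k _ => ((hg k).integrable_mul hχ hχs).const_mul _,
      ← integral_complex_ofReal]
    refine integral_congr_ae (hf.mono fun t ht => ?_)
    simp only [ofReal_mul, ht, Finset.mul_sum]
    exact Finset.sum_congr rfl fun k _ => by ring
  rw [← ofReal_inj, ofReal_neg, key _ (hψ1.continuous_deriv le_rfl) hs.deriv f g hg hf,
    key _ hψ.continuous hs F G hG hF, ← Finset.sum_neg_distrib]
  refine Finset.sum_congr rfl fun k hk => ?_
  by_cases h0 : γ k = 0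
  · simp [h0]
  · rw [← h k hk h0 ψ hψ1 hs, mul_neg]

lemma cv_grad (κ : ℝ) {a f : K → ℂ} {A B B' : ℝ} (hA : Bd a A) (hf : Bd f B)
    (hg : ∀ i, Bd (fun k => I * κ * k i * f k) B') (n : K) :
    cv (vel a 0) (fun k => I * κ * k 0 * f k) n + cv (vel a 1) (fun k => I * κ * k 1 * f k) n =
      adv κ a f n := by
  have h1 := (summable_cv (hA.vel 0) (hg 0) n).hasSum.add (summable_cv (hA.vel 1) (hg 1) n).hasSum
  have h2 := ((summable_cv (hA.vel 0) hf n).hasSum.mul_left (I * κ * n 0)).add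
    ((summable_cv (hA.vel 1) hf n).hasSum.mul_left (I * κ * n 1))
  refine h1.unique (h2.congr_fun fun p => ?_)
  simp only [Pi.sub_apply, Int.cast_sub]
  linear_combination (-(I * κ * f (n - p))) * vel_div a p

variable {L : ℝ} [hL : Fact (0 < L)]

lemma cf_uu {a : K → ℂ} {R : ℝ} (hR : Bd a R) (h : Herm a) (j : Fin 2) :
    cf (uu L a j) = fun k => tau k j * a k := cf_rs (hR.tau_mul j) (h.tau_mul j)

lemma cf_DD {a : K → ℂ} (h : Herm a) (hs : Summable fun k => nsq k * ‖a k‖ ^ 2) (i j : Fin 2) :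
    cf (DD L a i j) = fun k => I * (2 * Real.pi / L : ℝ) * k i * (tau k j * a k) :=
  cf_rs (bd_grad hs _ i j) ((h.tau_mul j).grad _ i)

lemma momentum_rhs (ν g : ℝ) {a b : K → ℂ} {R r : ℝ} (hR : Bd a R) (ha : Herm a) (hr : Bd b r)
    (hb : Herm b) (hb0 : b 0 = 0) (hs : Summable fun k => nsq k * ‖a k‖ ^ 2)
    {w : Fin 2 → Torus L → ℝ} {s : Finset K} {c : Fin 2 → K → ℂ} (hw : ∀ j, Trig s (c j) (w j))
    (hc : ∀ k ∈ s, (k 0 : ℂ) * c 0 k + k 1 * c 1 k = 0) :
    ((-(∑ i, ∑ j, ∫ x, uu L a i x * DD L a i j x * w j x ∂haar L) -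
      ν * (∑ i, ∑ j, ∫ x, DD L a i j x * pd i (w j) x ∂haar L) +
      g * ∫ x, rs L b x * w 1 x ∂haar L : ℝ) : ℂ) =
      ∑ k ∈ s, (c 0 k * tau (-k) 0 + c 1 k * tau (-k) 1) *
        Fa (2 * Real.pi / L) ν g a b (-k) := by
  simp only [Fin.sum_univ_two]
  push_cast
  simp only [fun i j => (hw j).integral_mul (integrable_mul_L2 (uu L a i) (DD L a i j)),
    fun i j => ((hw j).pd i).integral_mul (integrable_L2' (DD L a i j)),
    (hw 1).integral_mul (integrable_L2' (rs L b)), cf_mul, cf_uu hR ha, cf_DD ha hs, cf_rs hr hb,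
    Finset.mul_sum, ← Finset.sum_add_distrib, ← Finset.sum_neg_distrib, ← Finset.sum_sub_distrib]
  refine Finset.sum_congr rfl fun k hk => ?_
  have e0 := cv_grad (2 * Real.pi / L) hR (hR.tau_mul 0) (fun i => bd_grad hs _ i 0) (-k)
  have e1 := cv_grad (2 * Real.pi / L) hR (hR.tau_mul 1) (fun i => bd_grad hs _ i 1) (-k)
  rw [ha.vel, ha.vel] at e0 e1
  by_cases hk0 : k = 0
  · subst hk0
    simp only [neg_zero, adv, Pi.zero_apply, Int.cast_zero, mul_zero, zero_mul, add_zero] at e0 e1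
    simp only [neg_zero, tau_zero, hb0, Pi.zero_apply, Int.cast_zero, mul_zero, zero_mul, add_zero]
    linear_combination (-c 0 0) * e0 + (-c 1 0) * e1
  · have hc' : (((-k) 0 : ℤ) : ℂ) * c 0 k + ((-k) 1 : ℤ) * c 1 k = 0 := by
      simp only [Pi.neg_apply, Int.cast_neg]
      linear_combination -hc k hk
    have p0 := tau_proj (neg_ne_zero.2 hk0) (c := fun j => c j k) hc' 0
    have p1 := tau_proj (neg_ne_zero.2 hk0) (c := fun j => c j k) hc' 1
    simp only [Fa, nsq, Pi.neg_apply, Int.cast_neg]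
    push_cast at e0 e1 ⊢
    linear_combination (-c 0 k) * e0 + (-c 1 k) * e1 +
      adv (2 * Real.pi / L) a (fun m => tau m 0 * a m) (-k) * p0 +
      (adv (2 * Real.pi / L) a (fun m => tau m 1 * a m) (-k) - g * b (-k)) * p1 +
      (ν * (2 * Real.pi / L) ^ 2 * ((k 0 : ℂ) ^ 2 + (k 1 : ℂ) ^ 2) * a (-k) *
        (c 0 k * tau (-k) 0 + c 1 k * tau (-k) 1)) * I_sq

theorem mem_attractor {ν : ℝ} (hν : 0 < ν) (g : ℝ) (θ₀ : L2 L) (h0 : ∫ x, θ₀ x ∂haar L = 0) :
    ∃ u₀, (u₀, θ₀) ∈ attractor L ν g := by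
  have hκ : 0 < 2 * Real.pi / L := by have := hL.out; positivity
  obtain ⟨R, a, b, hb, hb0, ha', hb', ha, hbc, hA, hB, hE, heq⟩ :=
    exists_herm_solution (g := g) hκ hν (bd_cf θ₀) (by rw [← integral_eq_cf, h0, ofReal_zero])
      (herm_cf θ₀)
  have hEI := fun n : ℕ => energy_integrable ha (T := n + 1) (by positivity)
    (hE (n + 1) (by positivity)).choose_spec
  have hsum : ∀ᵐ t, Summable fun k => nsq k * ‖a t k‖ ^ 2 := by
    have h1 := (ae_restrict_iUnion_iff (μ := volume) (fun n : ℕ => Ioc (-((n : ℝ) + 1)) (n + 1))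
      _).2 fun n => (hEI n).1
    have h2 : (⋃ n : ℕ, Ioc (-((n : ℝ) + 1)) (n + 1)) = univ := by
      refine eq_univ_of_forall fun t => ?_
      obtain ⟨n, hn⟩ := exists_nat_ge |t|
      exact mem_iUnion.2 ⟨n, by linarith [neg_abs_le t], by linarith [le_abs_self t]⟩
    rwa [h2, Measure.restrict_univ] at h1
  have hun : ∀ t, ‖uu L (a t)‖ ≤ R := fun t => (pi_norm_le_iff_of_nonneg (hA t).1).2 fun j =>
    norm_rs_le ((hA t).tau_mul j) ((ha' t).tau_mul j)
  have bma : ∀ k, BM fun t => a t k := fun k => .of_continuous (ha k) fun t => (hA t).norm_le k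
  have bmb : ∀ k, BM fun t => b t k := fun k => .of_continuous (hbc k) fun t => (hB t).norm_le k
  refine ⟨uu L (a 0), fun t => uu L (a t), fun t => rs L (b t), ⟨fun t => uu_mem (hA t) (ha' t),
    fun j v => continuous_inner_rs (fun k => continuous_const.mul (ha k))
      (fun t => (hA t).tau_mul j) (fun t => (ha' t).tau_mul j) v, fun t => ?_,
    continuous_inner_rs hbc hB hb', ⟨fun t => DD L (a t),
      ⟨hsum.mono fun t ht => pair_mem (hA t) (ha' t) ht, fun s₁ s₂ => ?_⟩, fun w hw => ?_⟩,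
    fun φ hφ => ?_⟩, rfl, ?_, max R ‖θ₀‖, fun t => ⟨(hun t).trans (le_max_left _ _),
      (norm_rs_le (hB t) (hb' t)).trans (le_max_right _ _)⟩⟩
  · rw [← ofReal_eq_zero, integral_eq_cf, cf_rs (hB t) (hb' t), hb0]
  · have hm : AEStronglyMeasurable (fun t => (uu L (a t), DD L (a t))) volume :=
      aestronglyMeasurable_of_tendsto_ae atTop (fun N => Continuous.aestronglyMeasurable
        ((continuous_pi fun j => continuous_trL (fun k => continuous_const.mul (ha k)) N).prodMk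
          (continuous_pi fun i => continuous_pi fun j => continuous_trL
            (fun k => continuous_const.mul (continuous_const.mul (ha k))) N)))
        (hsum.mono fun t ht => tendsto_pair (hA t) ht)
    rw [memLp_two_iff_integrable_sq_norm hm.restrict]
    obtain ⟨n, hn⟩ := exists_nat_ge (max |s₁| |s₂|)
    have hsub : Icc s₁ s₂ ⊆ Ioc (-((n : ℝ) + 1)) (n + 1) := fun t ht =>
      ⟨by linarith [neg_abs_le s₁, le_max_left |s₁| |s₂|, ht.1],
        by linarith [le_abs_self s₂, le_max_right |s₁| |s₂|, ht.2]⟩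
    have hi : Integrable (fun t => R ^ 2 + (2 * Real.pi / L) ^ 2 * ∑' k, nsq k * ‖a t k‖ ^ 2)
        (volume.restrict (Icc s₁ s₂)) :=
      (integrable_const _).add (Integrable.const_mul ((hEI n).2.mono_set hsub) _)
    refine hi.mono' (hm.restrict.norm.pow 2) (ae_restrict_of_ae (hsum.mono fun t ht => ?_))
    have h1 : ‖DD L (a t)‖ ≤ |2 * Real.pi / L| * Real.sqrt (∑' k, nsq k * ‖a t k‖ ^ 2) :=
      (pi_norm_le_iff_of_nonneg (by positivity)).2 fun i =>
        (pi_norm_le_iff_of_nonneg (by positivity)).2 fun j =>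
          norm_rs_le (bd_grad ht _ i j) (((ha' t).tau_mul j).grad _ i)
    have h2 : 0 ≤ ∑' k, nsq k * ‖a t k‖ ^ 2 :=
      tsum_nonneg fun k => mul_nonneg (nsq_nonneg k) (by positivity)
    have h3 : ‖DD L (a t)‖ ^ 2 ≤ (2 * Real.pi / L) ^ 2 * ∑' k, nsq k * ‖a t k‖ ^ 2 := by
      refine (pow_le_pow_left₀ (norm_nonneg _) h1 2).trans_eq ?_
      rw [mul_pow, sq_abs, Real.sq_sqrt h2]
    have h4 : ‖uu L (a t)‖ ^ 2 ≤ R ^ 2 := pow_le_pow_left₀ (norm_nonneg _) (hun t) 2
    rw [Real.norm_of_nonneg (by positivity), Prod.norm_def]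
    rcases le_total ‖uu L (a t)‖ ‖DD L (a t)‖ with h | h
    · rw [max_eq_right h]
      nlinarith [sq_nonneg R]
    · rw [max_eq_left h]
      nlinarith [sq_nonneg ‖DD L (a t)‖]
  · obtain ⟨s, c, hw, hc⟩ := hw.exists_coeff
    refine distrib_of_complex (s := s) (γ := fun k => c 0 k * tau (-k) 0 + c 1 k * tau (-k) 1)
      (fun k => bma (-k)) (fun k => BM.Fa _ ν g ha hbc hA hB (-k))
      (Eventually.of_forall fun t => ?_)
      (hsum.mono fun t ht => momentum_rhs ν g (hA t) (ha' t) (hB t) (hb' t) (hb0 t) ht hw hc)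
      fun k _ hk ψ hψ hs => (heq (-k) (fun h => hk (by simp [h, tau_zero])) ψ hψ hs).1
    simp only [pair, Fin.sum_univ_two, ofReal_add,
      fun j => (hw j).integral_mul (integrable_L2' (uu L (a t) j)), cf_uu (hA t) (ha' t),
      ← Finset.sum_add_distrib]
    exact Finset.sum_congr rfl fun k _ => by ring
  · obtain ⟨s, c, hφ⟩ := isTrig_iff.1 hφ
    refine distrib_of_complex (s := s) (γ := c)
      (fun k => bmb (-k)) (fun k => BM.Fb (2 * Real.pi / L) ha hbc hA hB (-k))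
      (Eventually.of_forall fun t => ?_) (Eventually.of_forall fun t => ?_)
      fun k _ _ ψ hψ hs => ?_
    · rw [pair, hφ.integral_mul (integrable_L2' _), cf_rs (hB t) (hb' t)]
    · simp only [triple, Fin.sum_univ_two, ofReal_add,
        fun i => (hφ.pd i).integral_mul (integrable_mul_L2 (uu L (a t) i) (rs L (b t))), cf_mul,
        cf_uu (hA t) (ha' t), cf_rs (hB t) (hb' t), ← Finset.sum_add_distrib]
      refine Finset.sum_congr rfl fun k _ => ?_
      simp only [Fb, adv, (ha' t).vel, Pi.neg_apply, Int.cast_neg]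
      ring
    · by_cases hk : k = 0
      · simp [hk, hb0, Fb, adv]
      · exact (heq (-k) (neg_ne_zero.2 hk) ψ hψ hs).2
  · simp only [hb, rs_cf]

end Pool.Agent.P.MP_f7c28d_an
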