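import Mathlib

set_option autoImplicit false

/-! Square summable sequences on `ℤ²`, convolution, compactness and weak convergence in time. -/

namespace Pool.Agent.P.MP_f7c28d_an

open Set Filter Topology MeasureTheory
open scoped NNReal

abbrev K := Fin 2 → ℤ

/-- `ℓ²` bound through finite sums. -/
def Bd (a : K → ℂ) (R : ℝ) : Prop := 0 ≤ R ∧ ∀ F : Finset K, ∑ k ∈ F, ‖a k‖ ^ 2 ≤ R ^ 2

lemma Bd.norm_le {a : K → ℂ} {R : ℝ} (h : Bd a R) (k : K) : ‖a k‖ ≤ R := by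
  have := h.2 {k}
  rw [Finset.sum_singleton] at this
  exact (pow_le_pow_iff_left₀ (norm_nonneg _) h.1 two_ne_zero).1 this

lemma Bd.summable {a : K → ℂ} {R : ℝ} (h : Bd a R) : Summable fun k => ‖a k‖ ^ 2 :=
  summable_of_sum_le (fun _ => by positivity) h.2

lemma Bd.mono {a b : K → ℂ} {R : ℝ} (h : Bd a R) (hb : ∀ k, ‖b k‖ ≤ ‖a k‖) : Bd b R :=
  ⟨h.1, fun F => (Finset.sum_le_sum fun k _ => by gcongr; exact hb k).trans (h.2 F)⟩

lemma Bd.comp {a : K → ℂ} {R : ℝ} (h : Bd a R) (e : K ≃ K) : Bd (fun k => a (e k)) R := by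
  refine ⟨h.1, fun F => ?_⟩
  have := h.2 (F.map e.toEmbedding)
  rwa [Finset.sum_map] at this

lemma Bd.of_tendsto {a : ℕ → K → ℂ} {b : K → ℂ} {R : ℝ} (h : ∀ n, Bd (a n) R)
    (hl : ∀ k, Tendsto (fun n => a n k) atTop (𝓝 (b k))) : Bd b R :=
  ⟨(h 0).1, fun F => le_of_tendsto' (tendsto_finsetSum F fun k _ => (hl k).norm.pow 2)
    fun n => (h n).2 F⟩

/-- Discrete convolution. -/
noncomputable def cv (f h : K → ℂ) (k : K) : ℂ := ∑' p, f p * h (k - p)

lemma sum_norm_mul_le {f h : K → ℂ} {A B : ℝ} (hf : Bd f A) (hh : Bd h B) (F : Finset K) :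
    ∑ p ∈ F, ‖f p * h p‖ ≤ A * B := by
  simp_rw [norm_mul]
  have h1 := Finset.sum_mul_sq_le_sq_mul_sq F (fun p => ‖f p‖) fun p => ‖h p‖
  have h2 : (∑ p ∈ F, ‖f p‖ ^ 2) * ∑ p ∈ F, ‖h p‖ ^ 2 ≤ (A * B) ^ 2 := by
    rw [mul_pow]
    exact mul_le_mul (hf.2 F) (hh.2 F) (by positivity) (by positivity)
  exact (pow_le_pow_iff_left₀ (by positivity) (mul_nonneg hf.1 hh.1) two_ne_zero).1 (h1.trans h2)

lemma summable_cv {f h : K → ℂ} {A B : ℝ} (hf : Bd f A) (hh : Bd h B) (k : K) :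
    Summable fun p => f p * h (k - p) :=
  .of_norm (summable_of_sum_le (fun _ => norm_nonneg _)
    (sum_norm_mul_le hf (hh.comp (Equiv.subLeft k))))

lemma norm_cv_le {f h : K → ℂ} {A B : ℝ} (hf : Bd f A) (hh : Bd h B) (k : K) :
    ‖cv f h k‖ ≤ A * B := by
  have hs := sum_norm_mul_le hf (hh.comp (Equiv.subLeft k))
  have h1 : Summable fun p => ‖f p * h (k - p)‖ := summable_of_sum_le (fun _ => norm_nonneg _) hs
  exact (norm_tsum_le_tsum_norm h1).trans (h1.tsum_le_of_sum_le hs)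

lemma norm_cv_sub_le {f h : K → ℂ} {A A' B : ℝ} (hf : Bd f A) (hh : Bd h B) (F : Finset K)
    (hA : Bd (fun p => if p ∈ F then 0 else f p) A') (k : K) :
    ‖cv f h k - ∑ p ∈ F, f p * h (k - p)‖ ≤ A' * B := by
  have h1 := norm_cv_le hA hh k
  have h2 : cv f h k - ∑ p ∈ F, f p * h (k - p) = cv (fun p => if p ∈ F then 0 else f p) h k := by
    have h3 : ∑ p ∈ F, f p * h (k - p) = ∑' p, if p ∈ F then f p * h (k - p) else 0 := by
      rw [tsum_eq_sum (s := F) fun p hp => by simp [hp]]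
      exact Finset.sum_congr rfl fun p hp => by simp [hp]
    rw [h3, cv, cv, ← Summable.tsum_sub (summable_cv hf hh k)
      (summable_of_ne_finset_zero (s := F) fun p hp => by simp [hp])]
    refine tsum_congr fun p => ?_
    split_ifs <;> simp
  rwa [h2]

lemma cv_eq_sum {f h : K → ℂ} (S : Finset K) (hS : ∀ m ∉ S, h m = 0) (k : K) :
    cv f h k = ∑ m ∈ S, f (k - m) * h m := by
  rw [cv, ← (Equiv.subLeft k).tsum_eq, tsum_eq_sum (s := S) fun m hm => by simp [hS m hm]]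
  simp

/-- Extraction of a pointwise convergent subsequence from equi-Lipschitz families. -/
lemma exists_subseq {ι : Type} [Countable ι] (f : ℕ → ι → ℝ → ℂ) (B : ℝ)
    (hB : ∀ n i t, ‖f n i t‖ ≤ B) (hL : ∀ i, ∃ Λ, ∀ n, LipschitzWith Λ (f n i)) :
    ∃ (φ : ℕ → ℕ) (g : ι → ℝ → ℂ), StrictMono φ ∧ (∀ i, Continuous (g i)) ∧
      ∀ i t, Tendsto (fun n => f (φ n) i t) atTop (𝓝 (g i t)) := by
  have hc : IsCompact (Set.pi univ fun _ : ι × ℚ => Metric.closedBall (0 : ℂ) B) :=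
    isCompact_univ_pi fun _ => isCompact_closedBall _ _
  obtain ⟨x, -, φ, hφ, hx⟩ := hc.tendsto_subseq (x := fun n p => f n p.1 p.2)
    fun n p _ => by simpa using hB n p.1 p.2
  rw [tendsto_pi_nhds] at hx
  have hcau : ∀ i t, CauchySeq fun n => f (φ n) i t := by
    intro i t
    obtain ⟨Λ, hΛ⟩ := hL i
    rw [Metric.cauchySeq_iff]
    intro ε hε
    obtain ⟨q, hq1, hq2⟩ := exists_rat_btwn
      (show t < t + ε / (3 * (Λ + 1)) from lt_add_of_pos_right _ (by positivity))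
    have hq : (Λ : ℝ) * dist t q < ε / 3 := by
      rw [Real.dist_eq, abs_sub_comm, abs_of_pos (by linarith)]
      have h1 : (q : ℝ) - t < ε / (3 * (Λ + 1)) := by linarith
      rw [lt_div_iff₀ (by positivity)] at h1
      have : (0 : ℝ) ≤ Λ := Λ.2
      nlinarith
    obtain ⟨N, hN⟩ := Metric.cauchySeq_iff.1 (hx (i, q)).cauchySeq (ε / 3) (by positivity)
    refine ⟨N, fun m hm n hn => ?_⟩
    have h1 := hN m hm n hn
    simp only [Function.comp_apply] at h1
    have h2 := (hΛ (φ m)).dist_le_mul t q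
    have h3 := (hΛ (φ n)).dist_le_mul t q
    have h4 := dist_triangle4 (f (φ m) i t) (f (φ m) i q) (f (φ n) i q) (f (φ n) i t)
    rw [dist_comm (f (φ n) i q)] at h4
    linarith
  choose g hg using fun i t => cauchySeq_tendsto_of_complete (hcau i t)
  refine ⟨φ, g, hφ, fun i => ?_, hg⟩
  obtain ⟨Λ, hΛ⟩ := hL i
  exact (LipschitzWith.of_dist_le_mul (K := Λ) fun s t =>
    le_of_tendsto' ((hg i s).dist (hg i t)) fun n => (hΛ (φ n)).dist_le_mul s t).continuous

/-- Bounded measurable functions of time. -/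
def BM (F : ℝ → ℂ) : Prop := StronglyMeasurable F ∧ ∃ C, ∀ t, ‖F t‖ ≤ C

lemma BM.integrable_mul {F : ℝ → ℂ} (h : BM F) {ψ : ℝ → ℝ} (hψ : Continuous ψ)
    (hs : HasCompactSupport ψ) : Integrable fun t => (ψ t : ℂ) * F t := by
  obtain ⟨C, hC⟩ := h.2
  exact (hψ.integrable_of_hasCompactSupport hs).ofReal.mul_bdd h.1.aestronglyMeasurable
    (Eventually.of_forall hC)

lemma BM.add {F G : ℝ → ℂ} (h : BM F) (h' : BM G) : BM fun t => F t + G t := by
  obtain ⟨C, hC⟩ := h.2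
  obtain ⟨C', hC'⟩ := h'.2
  exact ⟨h.1.add h'.1, C + C', fun t => (norm_add_le _ _).trans (add_le_add (hC t) (hC' t))⟩

lemma BM.const_mul {F : ℝ → ℂ} (h : BM F) (c : ℂ) : BM fun t => c * F t := by
  obtain ⟨C, hC⟩ := h.2
  exact ⟨h.1.const_mul c, ‖c‖ * C, fun t => by rw [norm_mul]; gcongr; exact hC t⟩

lemma BM.sum {ι : Type*} {F : ι → ℝ → ℂ} (s : Finset ι) (h : ∀ i ∈ s, BM (F i)) :
    BM fun t => ∑ i ∈ s, F i t := by
  classical
  induction s using Finset.induction_on with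
  | empty => exact ⟨by simpa using stronglyMeasurable_const, 0, by simp⟩
  | insert i s hi ih =>
    simp_rw [Finset.sum_insert hi]
    exact (h i (by simp)).add (ih fun j hj => h j (by simp [hj]))

lemma BM.locallyIntegrable {F : ℝ → ℂ} (h : BM F) : LocallyIntegrable F := by
  obtain ⟨C, hC⟩ := h.2
  exact (locallyIntegrable_const C).mono h.1.aestronglyMeasurable
    (Eventually.of_forall fun t => (hC t).trans (le_abs_self C))

lemma stronglyMeasurable_of_hasSum {E : Type*} [NormedAddCommGroup E] {c : ℝ → K → E} {s : ℝ → E}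
    (hc : ∀ k, Continuous fun t => c t k) (hs : ∀ t, HasSum (c t) (s t)) :
    StronglyMeasurable s :=
  stronglyMeasurable_of_tendsto (atTop : Filter (Finset K))
    (f := fun F t => ∑ k ∈ F, c t k)
    (fun F => (continuous_finsetSum F fun k _ => hc k).stronglyMeasurable)
    (tendsto_pi_nhds.2 hs)

lemma BM.cv {v f : ℝ → K → ℂ} {A B : ℝ} (hv : ∀ k, Continuous fun t => v t k)
    (hf : ∀ k, Continuous fun t => f t k) (hA : ∀ t, Bd (v t) A) (hB : ∀ t, Bd (f t) B) (k : K) :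
    BM fun t => cv (v t) (f t) k :=
  ⟨stronglyMeasurable_of_hasSum (c := fun t p => v t p * f t (k - p))
    (fun p => (hv p).mul (hf _)) fun t => (summable_cv (hA t) (hB t) k).hasSum,
    A * B, fun t => norm_cv_le (hA t) (hB t) k⟩

/-- Convergence against compactly supported continuous weights in time. -/
def WC (Fn : ℕ → ℝ → ℂ) (F : ℝ → ℂ) : Prop :=
  (∀ n, BM (Fn n)) ∧ BM F ∧ ∀ ψ : ℝ → ℝ, Continuous ψ → HasCompactSupport ψ →
    Tendsto (fun n => ∫ t, (ψ t : ℂ) * Fn n t) atTop (𝓝 (∫ t, (ψ t : ℂ) * F t))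

lemma WC.add {Fn Gn : ℕ → ℝ → ℂ} {F G : ℝ → ℂ} (h : WC Fn F) (h' : WC Gn G) :
    WC (fun n t => Fn n t + Gn n t) fun t => F t + G t := by
  refine ⟨fun n => (h.1 n).add (h'.1 n), h.2.1.add h'.2.1, fun ψ hψ hs => ?_⟩
  simp_rw [mul_add]
  rw [integral_add (h.2.1.integrable_mul hψ hs) (h'.2.1.integrable_mul hψ hs)]
  refine ((h.2.2 ψ hψ hs).add (h'.2.2 ψ hψ hs)).congr fun n => ?_
  rw [integral_add ((h.1 n).integrable_mul hψ hs) ((h'.1 n).integrable_mul hψ hs)]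

lemma WC.const_mul {Fn : ℕ → ℝ → ℂ} {F : ℝ → ℂ} (h : WC Fn F) (c : ℂ) :
    WC (fun n t => c * Fn n t) fun t => c * F t := by
  refine ⟨fun n => (h.1 n).const_mul c, h.2.1.const_mul c, fun ψ hψ hs => ?_⟩
  simp_rw [mul_left_comm _ c, integral_const_mul]
  exact (h.2.2 ψ hψ hs).const_mul c

lemma WC.of_tendsto {Fn : ℕ → ℝ → ℂ} {F : ℝ → ℂ} (hm : ∀ n, Continuous (Fn n)) {C : ℝ}
    (hC : ∀ n t, ‖Fn n t‖ ≤ C) (hl : ∀ t, Tendsto (fun n => Fn n t) atTop (𝓝 (F t))) :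
    WC Fn F := by
  refine ⟨fun n => ⟨(hm n).stronglyMeasurable, C, hC n⟩,
    ⟨stronglyMeasurable_of_tendsto atTop (fun n => (hm n).stronglyMeasurable)
      (tendsto_pi_nhds.2 hl), C, fun t => le_of_tendsto' (hl t).norm fun n => hC n t⟩,
    fun ψ hψ hs => ?_⟩
  refine tendsto_integral_of_dominated_convergence (fun t => ‖ψ t‖ * C)
    (fun n => ((Complex.continuous_ofReal.comp hψ).mul (hm n)).aestronglyMeasurable)
    ((hψ.integrable_of_hasCompactSupport hs).norm.mul_const C)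
    (fun n => Eventually.of_forall fun t => ?_)
    (Eventually.of_forall fun t => (hl t).const_mul _)
  rw [norm_mul, Complex.norm_real]
  gcongr
  exact hC n t

end Pool.Agent.P.MP_f7c28d_an
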