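import Pool.Agent.P.MP_f7c28d_an.Fourier

set_option autoImplicit false

/-! Trigonometric polynomials, the spaces `H` and `V`. -/

namespace Pool.Agent.P.MP_f7c28d_an

open Set Filter Topology MeasureTheory Complex
open scoped NNReal ComplexConjugate ENNReal

variable {L : ℝ}

/-- `φ` is the trigonometric polynomial with coefficients `c` on `s`. -/
def Trig (s : Finset K) (c : K → ℂ) (φ : Torus L → ℝ) : Prop :=
  ∀ x, (φ x : ℂ) = ∑ k ∈ s, c k * e k x

lemma isTrig_iff {φ : Torus L → ℝ} : IsTrig φ ↔ ∃ s c, Trig s c φ := Iff.rfl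

lemma hasDerivAt_e (k : K) (i : Fin 2) (x : Torus L) :
    HasDerivAt (fun s : ℝ => e k (x + Pi.single i (s : AddCircle L)))
      (I * (2 * Real.pi / L : ℝ) * k i * e k x) 0 := by
  have h1 : ∀ s : ℝ, e k (x + Pi.single i (s : AddCircle L)) =
      e k x * fourier (k i) (s : AddCircle L) := by
    intro s
    fin_cases i <;> simp [e_apply, fourier_apply, AddCircle.toCircle_add] <;> ring
  simp only [h1]
  refine ((hasDerivAt_fourier L (k i) 0).const_mul (e k x)).congr_deriv ?_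
  simp
  ring

lemma Trig.pd {s : Finset K} {c : K → ℂ} {φ : Torus L → ℝ} (h : Trig s c φ) (i : Fin 2) :
    Trig s (fun k => I * (2 * Real.pi / L : ℝ) * k i * c k) (pd i φ) := by
  intro x
  have h1 : HasDerivAt (fun t : ℝ => (φ (x + Pi.single i (t : AddCircle L)) : ℂ))
      (∑ k ∈ s, I * (2 * Real.pi / L : ℝ) * k i * c k * e k x) 0 := by
    simp only [h _]
    refine (HasDerivAt.fun_sum fun k _ => (hasDerivAt_e k i x).const_mul (c k)).congr_deriv ?_
    exact Finset.sum_congr rfl fun k _ => by ring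
  have h2 := reCLM.hasFDerivAt.comp_hasDerivAt (0 : ℝ) h1
  have h3 := imCLM.hasFDerivAt.comp_hasDerivAt (0 : ℝ) h1
  simp only [Function.comp_def, reCLM_apply, imCLM_apply, ofReal_re, ofReal_im] at h2 h3
  rw [Pool.Agent.P.MP_f7c28d_an.pd, h2.deriv]
  exact Complex.ext (ofReal_re _)
    ((ofReal_im _).trans ((hasDerivAt_const (0 : ℝ) (0 : ℝ)).unique h3))

lemma Trig.mono {s t : Finset K} {c : K → ℂ} {φ : Torus L → ℝ} (h : Trig s c φ) (hst : s ⊆ t) :
    Trig t (fun k => if k ∈ s then c k else 0) φ := by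
  intro x
  rw [h x, ← Finset.sum_subset hst fun k _ hk => by simp [hk]]
  exact Finset.sum_congr rfl fun k hk => by simp [hk]

variable [hL : Fact (0 < L)]

lemma Trig.integral_mul {s : Finset K} {c : K → ℂ} {φ : Torus L → ℝ} (h : Trig s c φ)
    {F : Torus L → ℝ} (hF : Integrable F (haar L)) :
    ((∫ x, F x * φ x ∂haar L : ℝ) : ℂ) = ∑ k ∈ s, c k * cf F (-k) := by
  have hF' : Integrable (fun x => (F x : ℂ)) (haar L) := hF.ofReal
  simp only [cf, coef, neg_neg, ← integral_const_mul]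
  rw [← integral_finsetSum _ fun k _ => (integrable_e_mul hF' k).const_mul (c k),
    ← integral_complex_ofReal]
  refine integral_congr_ae (Eventually.of_forall fun x => ?_)
  simp only [ofReal_mul, h x, Finset.mul_sum]
  exact Finset.sum_congr rfl fun k _ => by
    change _ = c k * (e k x * (F x : ℂ))
    ring

lemma coeff_eq_zero {s : Finset K} {d : K → ℂ} (h : ∀ x : Torus L, ∑ k ∈ s, d k * e k x = 0)
    {k : K} (hk : k ∈ s) : d k = 0 := by
  have h1 : ∫ x, e (-k) x * ∑ m ∈ s, d m * e m x ∂haar L = d k := by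
    simp only [Finset.mul_sum, mul_left_comm _ (d _), ← e_add]
    rw [integral_finsetSum _ fun m _ => ((e _).continuous.integrable_of_hasCompactSupport
      (HasCompactSupport.of_compactSpace _)).const_mul _]
    simp only [integral_const_mul, integral_e, neg_add_eq_zero]
    simp [hk]
  simpa [h] using h1.symm

lemma IsDivFree.exists_coeff {w : Fin 2 → Torus L → ℝ} (h : IsDivFree w) :
    ∃ (s : Finset K) (c : Fin 2 → K → ℂ), (∀ j, Trig s (c j) (w j)) ∧
      ∀ k ∈ s, (k 0 : ℂ) * c 0 k + k 1 * c 1 k = 0 := by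
  classical
  choose s c hc using h.1
  have h1 : ∀ j, Trig (s 0 ∪ s 1) (fun k => if k ∈ s j then c j k else 0) (w j) := fun j =>
    Trig.mono (hc j) (by fin_cases j <;> simp)
  refine ⟨s 0 ∪ s 1, _, h1, fun k hk => ?_⟩
  have h2 := coeff_eq_zero (L := L) (s := s 0 ∪ s 1) (d := fun k =>
    I * (2 * Real.pi / L : ℝ) * k 0 * (if k ∈ s 0 then c 0 k else 0) +
    I * (2 * Real.pi / L : ℝ) * k 1 * (if k ∈ s 1 then c 1 k else 0)) (fun x => by
      simp only [add_mul, Finset.sum_add_distrib]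
      rw [← (h1 0).pd 0 x, ← (h1 1).pd 1 x, ← ofReal_add, ← Fin.sum_univ_two fun j => pd j (w j) x,
        h.2 x, ofReal_zero]) hk
  have h3 : I * ((2 * Real.pi / L : ℝ) : ℂ) ≠ 0 :=
    mul_ne_zero I_ne_zero (ofReal_ne_zero.2 (by have := hL.out; positivity))
  refine (mul_eq_zero_iff_left h3).1 ?_
  linear_combination h2

lemma cf_mul (f h : L2 L) (k : K) : cf (fun x => f x * h x) k = cv (cf f) (cf h) k := by
  rw [← integral_e_mul]
  simp [cf, coef]

lemma integrable_mul_L2 (f h : L2 L) : Integrable (fun x => f x * h x) (haar L) :=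
  (Lp.memLp f).integrable_mul (Lp.memLp h)

lemma integrable_L2' (f : L2 L) : Integrable f (haar L) := (Lp.memLp f).integrable one_le_two

lemma integral_eq_cf (f : Torus L → ℝ) : ((∫ x, f x ∂haar L : ℝ) : ℂ) = cf f 0 := by
  simp [cf, coef, e_zero, integral_complex_ofReal]

omit hL in
lemma trig_tr {c : K → ℂ} (hc : Herm c) (N : ℕ) : Trig (L := L) (box N) c (tr c N) :=
  ofReal_tr hc N

lemma Herm.tau_mul {a : K → ℂ} (h : Herm a) (j : Fin 2) : Herm fun k => tau k j * a k :=
  fun k => by simp [tau_neg, h k]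

lemma Herm.grad {a : K → ℂ} (h : Herm a) (κ : ℝ) (i : Fin 2) :
    Herm fun k => I * κ * k i * a k := fun k => by simp [h k]

/-- The velocity with amplitude `a`. -/
noncomputable def uu (L : ℝ) [Fact (0 < L)] (a : K → ℂ) (j : Fin 2) : L2 L :=
  rs L fun k => tau k j * a k

/-- The velocity gradient with amplitude `a`. -/
noncomputable def DD (L : ℝ) [Fact (0 < L)] (a : K → ℂ) (i j : Fin 2) : L2 L :=
  rs L fun k => I * (2 * Real.pi / L : ℝ) * k i * (tau k j * a k)

lemma approx {a : K → ℂ} (h : Herm a) (N : ℕ) :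
    IsDivFree (fun j => tr (L := L) (fun k => tau k j * a k) N) ∧
    (∀ j, ∫ x, tr (L := L) (fun k => tau k j * a k) N x ∂haar L = 0) ∧
    ∀ i j, pd i (tr (L := L) (fun k => tau k j * a k) N) =
      tr (fun k => I * (2 * Real.pi / L : ℝ) * k i * (tau k j * a k)) N := by
  refine ⟨⟨fun j => ⟨_, _, trig_tr (h.tau_mul j) N⟩, fun x => ?_⟩, fun j => ?_, fun i j => ?_⟩
  · rw [← ofReal_eq_zero, Fin.sum_univ_two, ofReal_add, (trig_tr (h.tau_mul 0) N).pd 0 x,
      (trig_tr (h.tau_mul 1) N).pd 1 x, ← Finset.sum_add_distrib]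
    refine Finset.sum_eq_zero fun k _ => ?_
    linear_combination (I * (2 * Real.pi / L : ℝ) * a k * e k x) * tau_div k
  · have := (trig_tr (L := L) (h.tau_mul j) N).integral_mul (F := fun _ => 1) (integrable_const 1)
    simp only [one_mul] at this
    rw [← ofReal_eq_zero, this]
    refine Finset.sum_eq_zero fun k _ => ?_
    by_cases hk : k = 0
    · simp [hk, tau_zero]
    · simp [cf, coef, integral_e, hk]
  · funext x
    rw [← ofReal_inj, (trig_tr (h.tau_mul j) N).pd i x, ofReal_tr ((h.tau_mul j).grad _ i)]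

lemma uu_mem {a : K → ℂ} {R : ℝ} (hR : Bd a R) (h : Herm a) : uu L a ∈ spaceH L := by
  refine mem_closure_of_tendsto (b := atTop) (f := fun N j => trL L (fun k => tau k j * a k) N)
    (tendsto_pi_nhds.2 fun j => tendsto_trL (hR.tau_mul j)) (Eventually.of_forall fun N => ?_)
  exact ⟨_, (approx h N).1, (approx h N).2.1, fun j => coeFn_trL _ N⟩

lemma bd_grad {a : K → ℂ} (hs : Summable fun k => nsq k * ‖a k‖ ^ 2) (κ : ℝ) (i j : Fin 2) :
    Bd (fun k => I * κ * k i * (tau k j * a k))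
      (|κ| * Real.sqrt (∑' k, nsq k * ‖a k‖ ^ 2)) := by
  refine ⟨by positivity, fun F => ?_⟩
  have h0 : ∀ k, 0 ≤ nsq k * ‖a k‖ ^ 2 := fun k => mul_nonneg (nsq_nonneg k) (by positivity)
  rw [mul_pow, Real.sq_sqrt (tsum_nonneg h0)]
  refine le_trans ?_ (mul_le_mul_of_nonneg_left (hs.sum_le_tsum F fun k _ => h0 k) (by positivity))
  rw [Finset.mul_sum]
  refine Finset.sum_le_sum fun k _ => ?_
  have h1 : ((k i : ℝ)) ^ 2 ≤ nsq k := by
    fin_cases i <;> simp [nsq] <;> positivity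
  have h2 : ‖tau k j‖ ^ 2 ≤ 1 := pow_le_one₀ (norm_nonneg _) (norm_tau_le k j)
  simp only [norm_mul, norm_I, norm_real, Real.norm_eq_abs, norm_intCast, one_mul, mul_pow, sq_abs]
  calc κ ^ 2 * (k i : ℝ) ^ 2 * (‖tau k j‖ ^ 2 * ‖a k‖ ^ 2) ≤ κ ^ 2 * nsq k * (1 * ‖a k‖ ^ 2) := by
        have := nsq_nonneg k
        gcongr
    _ = _ := by ring

lemma tendsto_pair {a : K → ℂ} {R : ℝ} (hR : Bd a R) (hs : Summable fun k => nsq k * ‖a k‖ ^ 2) :
    Tendsto (fun N => ((fun j => trL L (fun k => tau k j * a k) N),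
      fun i j => trL L (fun k => I * (2 * Real.pi / L : ℝ) * k i * (tau k j * a k)) N)) atTop
      (𝓝 (uu L a, DD L a)) :=
  (tendsto_pi_nhds.2 fun j => tendsto_trL (hR.tau_mul j)).prodMk_nhds
    (tendsto_pi_nhds.2 fun i => tendsto_pi_nhds.2 fun j => tendsto_trL (bd_grad hs _ i j))

lemma pair_mem {a : K → ℂ} {R : ℝ} (hR : Bd a R) (h : Herm a)
    (hs : Summable fun k => nsq k * ‖a k‖ ^ 2) : (uu L a, DD L a) ∈ graphV L := by
  refine mem_closure_of_tendsto (tendsto_pair hR hs) (Eventually.of_forall fun N => ?_)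
  refine ⟨_, (approx h N).1, (approx h N).2.1, fun j => coeFn_trL _ N, fun i j => ?_⟩
  rw [(approx h N).2.2]
  exact coeFn_trL _ N

omit hL in
lemma energy_integrable {a : ℝ → K → ℂ} (ha : ∀ k, Continuous fun t => a t k)
    {T C : ℝ} (hT : 0 < T) (hE : En a T C) :
    (∀ᵐ t ∂volume.restrict (Ioc (-T) T), Summable fun k => nsq k * ‖a t k‖ ^ 2) ∧
      IntegrableOn (fun t => ∑' k, nsq k * ‖a t k‖ ^ 2) (Ioc (-T) T) := by
  have h0 : ∀ t k, 0 ≤ nsq k * ‖a t k‖ ^ 2 := fun t k => mul_nonneg (nsq_nonneg k) (by positivity)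
  have hc : ∀ k, Continuous fun t => nsq k * ‖a t k‖ ^ 2 :=
    fun k => continuous_const.mul ((ha k).norm.pow 2)
  have hi : ∀ k, Integrable (fun t => nsq k * ‖a t k‖ ^ 2) (volume.restrict (Ioc (-T) T)) :=
    fun k => (hc k).integrableOn_Ioc
  have hfin : ∫⁻ t in Ioc (-T) T, ∑' k, ENNReal.ofReal (nsq k * ‖a t k‖ ^ 2) < ∞ := by
    rw [lintegral_tsum fun k => (hc k).measurable.ennreal_ofReal.aemeasurable,
      ENNReal.tsum_eq_iSup_sum]
    refine lt_of_le_of_lt (iSup_le fun G => ?_) (ENNReal.ofReal_lt_top (r := C))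
    simp only [fun k => (ofReal_integral_eq_lintegral_ofReal (hi k)
      (Eventually.of_forall fun t => h0 t k)).symm]
    rw [← ENNReal.ofReal_sum_of_nonneg fun k _ => integral_nonneg fun t => h0 t k,
      ← integral_finsetSum _ fun k _ => hi k, ← intervalIntegral.integral_of_le (by linarith)]
    exact ENNReal.ofReal_le_ofReal (hE G)
  have hm : Measurable fun t => ∑' k, ENNReal.ofReal (nsq k * ‖a t k‖ ^ 2) :=
    Measurable.tsum fun k => (hc k).measurable.ennreal_ofReal
  refine ⟨?_, ?_⟩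
  · filter_upwards [ae_lt_top hm hfin.ne] with t ht
    have := ENNReal.summable_toReal ht.ne
    simpa only [ENNReal.toReal_ofReal (h0 t _)] using this
  · refine (integrable_toReal_of_lintegral_ne_top hm.aemeasurable hfin.ne).congr
      (Eventually.of_forall fun t => ?_)
    simp only
    rw [ENNReal.tsum_toReal_eq fun _ => ENNReal.ofReal_ne_top]
    simp only [ENNReal.toReal_ofReal (h0 t _)]

end Pool.Agent.P.MP_f7c28d_an
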